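import Mathlib
import Pool.Agent.R440.WZ

/-!
Wilf–Zeilberger summation in the normalisation `∑ M^(n-1-j) t(j)`, and elementary valuation helpers.
-/

set_option autoImplicit false

namespace Pool.Agent.R312.WZ

open Finset Nat

/-- WZ summation: `T (n+1) k - M T n k` telescopes in `k`. -/
theorem wz_sum (M : ℚ) (T Φ : ℕ → ℕ → ℚ)
    (h : ∀ n k, k ≤ n → T (n + 1) k - M * T n k = Φ n k - Φ n (k + 1))
    (hT : ∀ n, T n n = 0) (hΦ : ∀ n, Φ n (n + 1) = 0) (n : ℕ) :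
    ∑ k ∈ range n, T n k = ∑ j ∈ range n, M ^ (n - 1 - j) * Φ j 0 := by
  induction n with
  | zero => simp
  | succ n ih =>
    have h1 : ∑ k ∈ range (n + 1), T (n + 1) k
        = M * ∑ k ∈ range (n + 1), T n k + ∑ k ∈ range (n + 1), (Φ n k - Φ n (k + 1)) := by
      rw [Finset.mul_sum, ← Finset.sum_add_distrib]
      refine Finset.sum_congr rfl fun k hk => ?_
      have := h n k (by have := Finset.mem_range.mp hk; omega)
      linarith
    rw [h1, Finset.sum_range_sub' (Φ n) (n + 1), hΦ, sub_zero, Finset.sum_range_succ, hT, add_zero,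
      ih, Finset.sum_range_succ, Finset.mul_sum]
    congr 1
    · refine Finset.sum_congr rfl fun j hj => ?_
      have hj' := Finset.mem_range.mp hj
      rw [show n + 1 - 1 - j = (n - 1 - j) + 1 by omega, pow_succ]
      ring
    · simp

/-- the integer version of the left-hand sum -/
theorem fz (n : ℕ) : ((n ! : ℕ) : ℚ) ≠ 0 := by exact_mod_cast Nat.factorial_ne_zero n

theorem fs (n : ℕ) : (((n + 1)! : ℕ) : ℚ) = ((n : ℚ) + 1) * (n ! : ℚ) := by
  rw [Nat.factorial_succ]; push_cast; ring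

theorem fs2 (n : ℕ) : (((n + 2)! : ℕ) : ℚ) = ((n : ℚ) + 2) * ((n : ℚ) + 1) * (n ! : ℚ) := by
  rw [Nat.factorial_succ, Nat.factorial_succ]; push_cast; ring

theorem fs3 (n : ℕ) : (((n + 3)! : ℕ) : ℚ)
    = ((n : ℚ) + 3) * ((n : ℚ) + 2) * ((n : ℚ) + 1) * (n ! : ℚ) := by
  rw [Nat.factorial_succ, Nat.factorial_succ, Nat.factorial_succ]; push_cast; ring

theorem fs4 (n : ℕ) : (((n + 4)! : ℕ) : ℚ)
    = ((n : ℚ) + 4) * ((n : ℚ) + 3) * ((n : ℚ) + 2) * ((n : ℚ) + 1) * (n ! : ℚ) := by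
  rw [Nat.factorial_succ, Nat.factorial_succ, Nat.factorial_succ, Nat.factorial_succ]
  push_cast; ring

theorem cbq (n : ℕ) : ((2 * n).choose n : ℚ) = ((2 * n)! : ℚ) / ((n ! : ℚ) * (n ! : ℚ)) := by
  rw [Nat.cast_choose ℚ (by omega : n ≤ 2 * n)]
  rw [show 2 * n - n = n by omega]

theorem c3q (n : ℕ) : ((3 * n).choose n : ℚ) = ((3 * n)! : ℚ) / ((n ! : ℚ) * ((2 * n)! : ℚ)) := by
  rw [Nat.cast_choose ℚ (by omega : n ≤ 3 * n)]
  rw [show 3 * n - n = 2 * n by omega]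

end Pool.Agent.R312.WZ
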