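import Mathlib
import Pool.Agent.R440.WZ
import Pool.Agent.R312.WZ

/-!
WZ pair for `(28n²+18n+3) C(2n,n)⁴ C(3n,n) / (-64)ⁿ` and integrality of its summands.
-/

set_option autoImplicit false

namespace Pool.Agent.R312.A28

open Finset Nat Pool.Agent.R440 Pool.Agent.R312.WZ

theorem fl_ineq (q x y : ℤ) (hq : 2 ≤ q) (hx0 : 0 ≤ x) (hx : x < q) (hy0 : 0 ≤ y)
    (hy : y < q) :
    (2 * x + 1) / q + (x - 2 * y - 1) / q + (x + 2 * y + 1) / q + 2 * ((x + y) / q)
      + 2 * ((x - y - 1) / q) + (2 * y) / q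
    ≤ (3 * x) / q + (x - 1) / q + (2 * x + 2 * y) / q + (2 * x - 2 * y - 2) / q
      + (2 * y + 1) / q := by
  have hq0 : 0 < q := by omega
  obtain ⟨l1, u1, c1, d1⟩ := fl_spec (2 * x + 1) q 0 1 hq0 (by linarith) (by linarith)
  obtain ⟨l2, u2, c2, d2⟩ := fl_spec (x - 2 * y - 1) q (-2) 0 hq0 (by linarith) (by linarith)
  obtain ⟨l3, u3, c3, d3⟩ := fl_spec (x + 2 * y + 1) q 0 2 hq0 (by linarith) (by linarith)
  obtain ⟨l4, u4, c4, d4⟩ := fl_spec (x + y) q 0 1 hq0 (by linarith) (by linarith)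
  obtain ⟨l5, u5, c5, d5⟩ := fl_spec (x - y - 1) q (-1) 0 hq0 (by linarith) (by linarith)
  obtain ⟨l6, u6, c6, d6⟩ := fl_spec (2 * y) q 0 1 hq0 (by linarith) (by linarith)
  obtain ⟨l7, u7, c7, d7⟩ := fl_spec (3 * x) q 0 2 hq0 (by linarith) (by linarith)
  obtain ⟨l8, u8, c8, d8⟩ := fl_spec (x - 1) q (-1) 0 hq0 (by linarith) (by linarith)
  obtain ⟨l9, u9, c9, d9⟩ := fl_spec (2 * x + 2 * y) q 0 3 hq0 (by linarith) (by linarith)
  obtain ⟨m1, v1, e1, f1⟩ := fl_spec (2 * x - 2 * y - 2) q (-2) 1 hq0 (by linarith) (by linarith)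
  obtain ⟨m2, v2, e2, f2⟩ := fl_spec (2 * y + 1) q 0 1 hq0 (by linarith) (by linarith)
  generalize (2 * x + 1) / q = A at *
  generalize (x - 2 * y - 1) / q = B at *
  generalize (x + 2 * y + 1) / q = C at *
  generalize (x + y) / q = D at *
  generalize (x - y - 1) / q = E at *
  generalize (2 * y) / q = F at *
  generalize (3 * x) / q = G at *
  generalize (x - 1) / q = H at *
  generalize (2 * x + 2 * y) / q = I at *
  generalize (2 * x - 2 * y - 2) / q = J at *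
  generalize (2 * y + 1) / q = K at *
  by_contra hcon
  interval_cases A <;> interval_cases D <;> (first | omega | skip) <;>
    interval_cases E <;> (first | omega | skip) <;> interval_cases F <;> (first | omega | skip) <;>
    interval_cases B <;> (first | omega | skip) <;> interval_cases C <;> (first | omega | skip) <;>
    interval_cases G <;> (first | omega | skip) <;> interval_cases H <;> (first | omega | skip) <;>
    interval_cases I <;> (first | omega | skip) <;> interval_cases J <;> (first | omega | skip) <;>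
    interval_cases K <;> omega


theorem fl_full (q a b x y : ℤ) (hq : 2 ≤ q) (hx0 : 0 ≤ x) (hx : x < q) (hy0 : 0 ≤ y)
    (hy : y < q) :
    (2 * (q * a + x) + 1) / q + ((q * a + x) - 2 * (q * b + y) - 1) / q
      + ((q * a + x) + 2 * (q * b + y) + 1) / q + 2 * (((q * a + x) + (q * b + y)) / q)
      + 2 * (((q * a + x) - (q * b + y) - 1) / q) + (2 * (q * b + y)) / q
    ≤ (3 * (q * a + x)) / q + ((q * a + x) - 1) / q + (2 * (q * a + x) + 2 * (q * b + y)) / q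
      + (2 * (q * a + x) - 2 * (q * b + y) - 2) / q + (2 * (q * b + y) + 1) / q := by
  have h0 : q ≠ 0 := by omega
  have h := fl_ineq q x y hq hx0 hx hy0 hy
  rw [show 2 * (q * a + x) + 1 = (2 * x + 1) + q * (2 * a) by ring,
    show (q * a + x) - 2 * (q * b + y) - 1 = (x - 2 * y - 1) + q * (a - 2 * b) by ring,
    show (q * a + x) + 2 * (q * b + y) + 1 = (x + 2 * y + 1) + q * (a + 2 * b) by ring,
    show (q * a + x) + (q * b + y) = (x + y) + q * (a + b) by ring,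
    show (q * a + x) - (q * b + y) - 1 = (x - y - 1) + q * (a - b) by ring,
    show 3 * (q * a + x) = 3 * x + q * (3 * a) by ring,
    show (q * a + x) - 1 = (x - 1) + q * a by ring,
    show 2 * (q * a + x) + 2 * (q * b + y) = (2 * x + 2 * y) + q * (2 * a + 2 * b) by ring,
    show 2 * (q * a + x) - 2 * (q * b + y) - 2 = (2 * x - 2 * y - 2) + q * (2 * a - 2 * b) by ring,
    show 2 * (q * b + y) + 1 = (2 * y + 1) + q * (2 * b) by ring,
    show 2 * (q * b + y) = 2 * y + q * (2 * b) by ring,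
    Int.add_mul_ediv_left _ _ h0, Int.add_mul_ediv_left _ _ h0, Int.add_mul_ediv_left _ _ h0,
    Int.add_mul_ediv_left _ _ h0, Int.add_mul_ediv_left _ _ h0, Int.add_mul_ediv_left _ _ h0,
    Int.add_mul_ediv_left _ _ h0, Int.add_mul_ediv_left _ _ h0, Int.add_mul_ediv_left _ _ h0,
    Int.add_mul_ediv_left _ _ h0, Int.add_mul_ediv_left _ _ h0]
  linarith

theorem fl_nat (n k q : ℕ) (hq : 2 ≤ q) (hk : 2 * k < n) :
    (2 * n + 1) / q + (n - 2 * k - 1) / q + (n + 2 * k + 1) / q + 2 * ((n + k) / q)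
      + 2 * ((n - k - 1) / q) + (2 * k) / q
    ≤ (3 * n) / q + (n - 1) / q + (2 * n + 2 * k) / q + (2 * n - 2 * k - 2) / q
      + (2 * k + 1) / q := by
  have h := fl_full q (n / q : ℕ) (k / q : ℕ) (n % q : ℕ) (k % q : ℕ) (by exact_mod_cast hq)
    (by positivity) (by exact_mod_cast Nat.mod_lt _ (by omega)) (by positivity)
    (by exact_mod_cast Nat.mod_lt _ (by omega))
  have hn : ((q : ℤ) * (n / q : ℕ) + (n % q : ℕ)) = n := by exact_mod_cast Nat.div_add_mod n q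
  have hkk : ((q : ℤ) * (k / q : ℕ) + (k % q : ℕ)) = k := by exact_mod_cast Nat.div_add_mod k q
  rw [hn, hkk] at h
  have e1 : ((n : ℤ) - 2 * k - 1) = ((n - 2 * k - 1 : ℕ) : ℤ) := by omega
  have e2 : ((n : ℤ) - k - 1) = ((n - k - 1 : ℕ) : ℤ) := by omega
  have e3 : ((n : ℤ) - 1) = ((n - 1 : ℕ) : ℤ) := by omega
  have e4 : (2 * (n : ℤ) - 2 * k - 2) = ((2 * n - 2 * k - 2 : ℕ) : ℤ) := by omega
  rw [e1, e2, e3, e4] at h
  exact_mod_cast h

/-- integrality of the summands -/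
theorem u_dvd (n k : ℕ) (hk : 2 * k < n) :
    (2 * n + 1)! * ((n - 2 * k - 1)! * ((n + 2 * k + 1)! * ((n + k)! * ((n + k)! *
      ((n - k - 1)! * ((n - k - 1)! * (2 * k)!)))))) ∣
      (3 * n)! * ((n - 1)! * ((2 * n + 2 * k)! * ((2 * n - 2 * k - 2)! * (2 * k + 1)!))) := by
  have h := prod_fac_dvd [3 * n, n - 1, 2 * n + 2 * k, 2 * n - 2 * k - 2, 2 * k + 1]
    [2 * n + 1, n - 2 * k - 1, n + 2 * k + 1, n + k, n + k, n - k - 1, n - k - 1, 2 * k] (by
    intro q hq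
    have := fl_nat n k q hq hk
    simp only [List.map_cons, List.map_nil, List.sum_cons, List.sum_nil]
    omega)
  simpa only [List.map_cons, List.map_nil, List.prod_cons, List.prod_nil, mul_one] using h

/-- right-hand summand -/
noncomputable def T (n k : ℕ) : ℚ :=
  n * ((3 * n)! : ℚ) * ((2 * n)! : ℚ) / (4 * (n ! : ℚ) ^ 3) * (2 * k + 1) *
    cb ((n : ℤ) + k) * cb ((n : ℤ) - k - 1) * rf ((n : ℤ) - 2 * k - 1) * rf ((n : ℤ) + 2 * k + 1)

/-- telescoping function -/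
noncomputable def Φ (n k : ℕ) : ℚ :=
  ((3 * n)! : ℚ) * ((2 * n)! : ℚ) / (n ! : ℚ) ^ 3 * (28 * (n : ℚ) ^ 2 + 18 * n + 3 - 4 * k ^ 2) *
    cb ((n : ℤ) + k) * cb ((n : ℤ) - k) * rf ((n : ℤ) - 2 * k) * rf ((n : ℤ) + 2 * k)

theorem wz (n k : ℕ) : T (n + 1) k - (-64) * T n k = Φ n k - Φ n (k + 1) := by
  unfold T Φ
  have c1 : cb (((n + 1 : ℕ) : ℤ) + k) = 2 * (2 * ((n : ℚ) + k) + 1) / ((n : ℚ) + k + 1) *
      cb ((n : ℤ) + k) := by
    have h := cb_step ((n : ℤ) + k)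
    rw [show ((n + 1 : ℕ) : ℤ) + k = (n : ℤ) + k + 1 by push_cast; ring]
    have : (n : ℚ) + k + 1 ≠ 0 := by positivity
    push_cast at h
    field_simp
    linarith
  have c2 : cb (((n + 1 : ℕ) : ℤ) - k - 1) = cb ((n : ℤ) - k) := by
    congr 1; push_cast; ring
  have c3 : cb ((n : ℤ) - k - 1) = ((n : ℚ) - k) / (2 * (2 * ((n : ℚ) - k) - 1)) *
      cb ((n : ℤ) - k) := by
    have h := cb_step ((n : ℤ) - k - 1)
    rw [show (n : ℤ) - k - 1 + 1 = (n : ℤ) - k by ring] at h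
    push_cast at h
    have h2 : 2 * ((n : ℚ) - k) - 1 ≠ 0 := by
      intro h0
      have : (2 * ((n : ℤ) - k) - 1 : ℤ) = 0 := by exact_mod_cast h0
      omega
    have h3 : (2 : ℚ) * (2 * ((n : ℚ) - k) - 1) ≠ 0 := mul_ne_zero two_ne_zero h2
    rw [div_mul_eq_mul_div, eq_div_iff h3]
    linarith
  have c4 : cb ((n : ℤ) - (k + 1 : ℕ)) = cb ((n : ℤ) - k - 1) := by
    congr 1; push_cast; ring
  have c5 : cb ((n : ℤ) + (k + 1 : ℕ)) = cb (((n + 1 : ℕ) : ℤ) + k) := by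
    congr 1; push_cast; ring
  have r1 : rf (((n + 1 : ℕ) : ℤ) - 2 * k - 1) = rf ((n : ℤ) - 2 * k) := by
    congr 1; push_cast; ring
  have r2 : rf ((n : ℤ) - 2 * k - 1) = ((n : ℚ) - 2 * k) * rf ((n : ℤ) - 2 * k) := by
    rw [rf_step, show (n : ℤ) - 2 * k - 1 + 1 = (n : ℤ) - 2 * k by ring]; push_cast; ring
  have r3 : rf ((n : ℤ) - 2 * (k + 1 : ℕ)) = ((n : ℚ) - 2 * k - 1) * (((n : ℚ) - 2 * k) *
      rf ((n : ℤ) - 2 * k)) := by
    rw [← r2, rf_step, show (n : ℤ) - 2 * (k + 1 : ℕ) + 1 = (n : ℤ) - 2 * k - 1 by push_cast; ring]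
    push_cast; ring
  have r4 : rf (((n + 1 : ℕ) : ℤ) + 2 * k + 1) = rf ((n : ℤ) + 2 * k + 2) := by
    congr 1; push_cast; ring
  have r5 : rf ((n : ℤ) + 2 * k + 1) = ((n : ℚ) + 2 * k + 2) * rf ((n : ℤ) + 2 * k + 2) := by
    rw [rf_step, show (n : ℤ) + 2 * k + 1 + 1 = (n : ℤ) + 2 * k + 2 by ring]; push_cast; ring
  have r6 : rf ((n : ℤ) + 2 * k) = ((n : ℚ) + 2 * k + 1) * (((n : ℚ) + 2 * k + 2) *
      rf ((n : ℤ) + 2 * k + 2)) := by
    rw [← r5, rf_step]; push_cast; ring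
  have r7 : rf ((n : ℤ) + 2 * (k + 1 : ℕ)) = rf ((n : ℤ) + 2 * k + 2) := by
    congr 1
  rw [c5, c4, c1, c2, c3, r1, r2, r3, r4, r5, r6, r7,
    show 3 * (n + 1) = 3 * n + 3 by ring, show 2 * (n + 1) = 2 * n + 2 by ring, fs3, fs2, fs]
  have z1 := fz n
  have z2 := fz (2 * n)
  have z3 := fz (3 * n)
  push_cast
  have z4 : (n : ℚ) + 1 ≠ 0 := by positivity
  have z5 : (n : ℚ) + k + 1 ≠ 0 := by positivity
  have z6 : 2 * ((n : ℚ) - k) - 1 ≠ 0 := by
    intro h0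
    have : (2 * ((n : ℤ) - k) - 1 : ℤ) = 0 := by exact_mod_cast h0
    omega
  generalize cb ((n : ℤ) + k) = X1
  generalize cb ((n : ℤ) - k) = X2
  generalize rf ((n : ℤ) - 2 * k) = X3
  generalize rf ((n : ℤ) + 2 * k + 2) = X4
  field_simp
  ring

end Pool.Agent.R312.A28
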