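import Pool.Agent.R684.PN.Stm

/-!
PN-INJ: a cocycle is determined by the restrictions to `N` of its values at generators of `N`.
-/

set_option autoImplicit false

namespace Pool.Agent.R312.PNINJ

open Pool.Agent.W649.ZL Pool.Agent.R684.PN Filter Topology
open scoped ENNReal

variable {Γ S : Type} [Group Γ]

theorem DD_append (σ : S → Γ) (L L' : List S) (f : Γ × S → ℂ) (x : Γ) :
    DD σ (L ++ L') f x = DD σ L f x + DD σ L' f (((L.map σ).prod)⁻¹ * x) := by
  induction L generalizing x with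
  | nil => simp [DD]
  | cons s L ih =>
    simp only [List.cons_append, DD, ih, List.map_cons, List.prod_cons, mul_inv_rev, mul_assoc]
    ring

theorem summ (f : EE Γ S) : Summable fun p => ‖f p‖ ^ 2 := by
  have h := (memℓp_gen_iff (p := 2) (by norm_num)).1 (lp.memℓp f)
  simpa using h

theorem DD_summ (σ : S → Γ) (L : List S) (f : Γ × S → ℂ) (hf : Summable fun p => ‖f p‖ ^ 2) :
    Summable fun x => ‖DD σ L f x‖ ^ 2 := by
  induction L with
  | nil => simpa [DD] using (summable_zero : Summable fun _ : Γ => (0 : ℝ))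
  | cons s L ih =>
    have h1 : Summable fun x : Γ => ‖f (x, s)‖ ^ 2 :=
      hf.comp_injective (i := fun x : Γ => (x, s)) (fun a b h => (Prod.ext_iff.1 h).1)
    have h2 : Summable fun x : Γ => ‖DD σ L f ((σ s)⁻¹ * x)‖ ^ 2 :=
      ih.comp_injective (mul_right_injective (σ s)⁻¹)
    refine Summable.of_nonneg_of_le (fun x => by positivity) (fun x => ?_)
      ((h1.mul_left 2).add (h2.mul_left 2))
    simp only [DD]
    have h3 := norm_add_le (f (x, s)) (DD σ L f ((σ s)⁻¹ * x))
    have h4 : ‖f (x, s) + DD σ L f ((σ s)⁻¹ * x)‖ ^ 2 ≤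
        (‖f (x, s)‖ + ‖DD σ L f ((σ s)⁻¹ * x)‖) ^ 2 :=
      pow_le_pow_left₀ (norm_nonneg _) h3 2
    nlinarith [sq_nonneg (‖f (x, s)‖ - ‖DD σ L f ((σ s)⁻¹ * x)‖)]

theorem zero_of_const (c : Γ → ℂ) (hc : Summable fun x => ‖c x‖ ^ 2) (n0 : Γ)
    (hn : ¬ IsOfFinOrder n0) (x : Γ) (h : ∀ k : ℕ, c (n0⁻¹ ^ k * x) = c x) : c x = 0 := by
  have hn' : ¬ IsOfFinOrder n0⁻¹ := by rwa [isOfFinOrder_inv_iff]
  have hi : Function.Injective fun k : ℕ => n0⁻¹ ^ k * x := by
    intro a b hab
    exact (injective_pow_iff_not_isOfFinOrder.2 hn') (mul_right_cancel hab)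
  have h1 : Summable fun k : ℕ => ‖c (n0⁻¹ ^ k * x)‖ ^ 2 := hc.comp_injective hi
  simp_rw [h] at h1
  have h2 := h1.tendsto_atTop_zero
  have h3 : ‖c x‖ ^ 2 = 0 := tendsto_nhds_unique tendsto_const_nhds h2
  simpa using h3

theorem t_INJ : S_INJ := by
  intro Γ S J _ _ σ hσ N _ L hL L₀ hL₀ hfin f hf hz
  classical
  obtain ⟨hf1, hf2⟩ := (mem_UU σ (MonoidHom.id Γ) {L₀} f).1 hf
  have hf1' : ∀ L L' : List S, (L.map σ).prod = (L'.map σ).prod →
      ∀ x, DD σ L f x = DD σ L' f x := hf1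
  have hf2' : ∀ x, DD σ L₀ f x = 0 := hf2 L₀ rfl
  choose w hw using hσ
  set c : Γ → Γ → ℂ := fun g x => DD σ (w g) f x with hc
  have cL : ∀ (M : List S) (x : Γ), DD σ M f x = c ((M.map σ).prod) x := fun M x =>
    hf1' _ _ (hw _).symm x
  have cmul : ∀ g h x, c (g * h) x = c g x + c h (g⁻¹ * x) := by
    intro g h x
    have h1 : c (g * h) x = DD σ (w g ++ w h) f x := by
      rw [cL]
      congr 1
      rw [List.map_append, List.prod_append, hw, hw]
    rw [h1, DD_append, hw]
  have cone : ∀ x, c 1 x = 0 := by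
    intro x
    have := cL [] x
    simp only [List.map_nil, List.prod_nil] at this
    rw [← this]
    simp [DD]
  have csum : ∀ g, Summable fun x => ‖c g x‖ ^ 2 := fun g => DD_summ σ (w g) f (summ f)
  set n₀ : Γ := (L₀.map σ).prod with hn₀
  have c0 : ∀ x, c n₀ x = 0 := fun x => by rw [← cL]; exact hf2' x
  -- (1)
  have st1 : ∀ n ∈ N, ∀ n' ∈ N, c n n' = 0 := by
    intro n hn
    rw [← hL] at hn
    induction hn using Subgroup.closure_induction with
    | mem x hx =>
      obtain ⟨j, rfl⟩ := hx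
      intro n' hn'
      simp only
      rw [← cL]
      exact hz ⟨n', hn'⟩ j
    | one => intro n' _; exact cone n'
    | mul a b ha hb iha ihb =>
      intro n' hn'
      rw [hL] at ha
      rw [cmul, iha n' hn', ihb _ (N.mul_mem (N.inv_mem ha) hn'), add_zero]
    | inv a ha iha =>
      intro n' hn'
      rw [hL] at ha
      have h1 := cmul a a⁻¹ (a * n')
      rw [mul_inv_cancel, cone, inv_mul_cancel_left, iha _ (N.mul_mem ha hn'), zero_add] at h1
      exact h1.symm
  have hN : N.Normal := inferInstance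
  have conj : ∀ g, ∀ n ∈ N, g⁻¹ * n * g ∈ N := by
    intro g n hn
    have := hN.conj_mem n hn g⁻¹
    simpa using this
  have key : ∀ g n x, c n x + c g (n⁻¹ * x) = c g x + c (g⁻¹ * n * g) (g⁻¹ * x) := by
    intro g n x
    rw [← cmul, ← cmul]
    congr 1
    group
  -- (2)
  have st2 : ∀ g x, g⁻¹ * x ∈ N → c g x = 0 := by
    intro g x hx
    have h1 : ∀ y, g⁻¹ * y ∈ N → c g (n₀⁻¹ * y) = c g y := by
      intro y hy
      have := key g n₀ y
      rw [c0, st1 _ (conj g n₀ hL₀) _ hy, zero_add, add_zero] at this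
      exact this
    have h2 : ∀ k : ℕ, g⁻¹ * (n₀⁻¹ ^ k * x) ∈ N := by
      intro k
      have h3 : g⁻¹ * (n₀⁻¹ ^ k * x) = (g⁻¹ * n₀⁻¹ ^ k * g) * (g⁻¹ * x) := by group
      rw [h3]
      exact N.mul_mem (conj g _ (N.pow_mem (N.inv_mem hL₀) k)) hx
    refine zero_of_const (c g) (csum g) n₀ hfin x (fun k => ?_)
    induction k with
    | zero => simp
    | succ k ih =>
      rw [pow_succ', mul_assoc, h1 _ (h2 k), ih]
  have st3 : ∀ n ∈ N, ∀ x, c n x = 0 := by
    intro n hn x
    have h1 := key x n x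
    rw [inv_mul_cancel, st1 _ (conj x n hn) 1 N.one_mem, st2 x x (by simp)] at h1
    rw [st2 x (n⁻¹ * x)] at h1
    · simpa using h1
    · rw [← mul_assoc]
      exact conj x _ (N.inv_mem hn)
  -- (3)
  have st4 : ∀ g x, c g x = 0 := by
    intro g x
    have h1 : ∀ y, c g (n₀⁻¹ * y) = c g y := by
      intro y
      have := key g n₀ y
      rw [c0, st3 _ (conj g n₀ hL₀), zero_add, add_zero] at this
      exact this
    refine zero_of_const (c g) (csum g) n₀ hfin x (fun k => ?_)
    induction k with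
    | zero => simp
    | succ k ih => rw [pow_succ', mul_assoc, h1, ih]
  ext ⟨x, s⟩
  have h1 := cL [s] x
  rw [st4] at h1
  simpa [DD] using h1

end Pool.Agent.R312.PNINJ
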