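import Mathlib
import Pool.Agent.R440.WZ

/-!
The numbers `R n = ∑ C(n+k,2k) C(2k,k)/(2k-1)`: integrality, a third-order recurrence,
and a closed form for `∑ (2k+1) R k ^ 2`.
-/

set_option autoImplicit false

namespace Pool.Agent.R312.RK

open Finset Nat Pool.Agent.R440

/-- `C(2k,k)/(2k-1)` as an integer -/
def c : ℕ → ℤ
  | 0 => -1
  | k + 1 => 2 * (catalan k : ℤ)

theorem c_mul (k : ℕ) : (2 * (k : ℤ) - 1) * c k = ((2 * k).choose k : ℤ) := by
  cases k with
  | zero => simp [c]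
  | succ k =>
    have h := succ_mul_catalan_eq_centralBinom k
    have h2 := Nat.succ_mul_centralBinom_succ k
    rw [Nat.centralBinom_eq_two_mul_choose] at h2
    have h3 : (((k + 1 : ℕ) : ℤ)) * ((2 * (k + 1)).choose (k + 1) : ℤ)
        = 2 * (2 * k + 1) * ((k + 1 : ℕ) * (catalan k : ℤ)) := by
      rw [← Nat.cast_mul, h2]
      have : ((((k + 1 : ℕ) : ℤ)) * (catalan k : ℤ)) = ((k.centralBinom : ℕ) : ℤ) := by
        exact_mod_cast h
      rw [this]
      push_cast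
      ring
    have h4 : (((k + 1 : ℕ) : ℤ)) ≠ 0 := by positivity
    apply mul_left_cancel₀ h4
    rw [h3]
    simp only [c]
    push_cast
    ring

/-- `R n` as an integer -/
def r (n : ℕ) : ℤ := ∑ k ∈ range (n + 1), ((n + k).choose (2 * k) : ℤ) * c k

theorem two_k_sub_ne (k : ℕ) : (2 * (k : ℚ) - 1) ≠ 0 := by
  intro h
  have h2 : (2 * (k : ℚ)) = 1 := by linarith
  have h3 : 2 * k = 1 := by exact_mod_cast h2
  omega

theorem c_q (k : ℕ) : (c k : ℚ) = ((2 * k).choose k : ℚ) / (2 * (k : ℚ) - 1) := by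
  rw [eq_div_iff (two_k_sub_ne k)]
  have := c_mul k
  have h2 : (((2 * (k : ℤ) - 1) * c k : ℤ) : ℚ) = (((2 * k).choose k : ℤ) : ℚ) := by rw [this]
  push_cast at h2
  linarith

/-- hypergeometric term -/
noncomputable def F (n k : ℕ) : ℚ :=
  ((n + k)! : ℚ) * rf ((n : ℤ) - k) * rf (k : ℤ) ^ 2 / (2 * (k : ℚ) - 1)

theorem F_zero {n k : ℕ} (h : n < k) : F n k = 0 := by
  unfold F
  rw [rf_neg (by omega)]
  simp

theorem F_eq (n k : ℕ) : ((n + k).choose (2 * k) : ℚ) * (c k : ℚ) = F n k := by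
  rcases Nat.lt_or_ge n k with h | h
  · rw [F_zero h, Nat.choose_eq_zero_of_lt (by omega)]; simp
  · obtain ⟨m, rfl⟩ : ∃ m, n = k + m := ⟨n - k, by omega⟩
    have h1 : rf (((k + m : ℕ) : ℤ) - k) = 1 / (m ! : ℚ) := by
      rw [← rf_nat]; congr 1; push_cast; ring
    have h2 : (m ! : ℚ) ≠ 0 := by positivity
    have h3 : (k ! : ℚ) ≠ 0 := by positivity
    have h4 : ((2 * k)! : ℚ) ≠ 0 := by positivity
    unfold F
    rw [c_q, h1, rf_nat, choose_two_mul, Nat.cast_choose ℚ (by omega : 2 * k ≤ k + m + k),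
      show k + m + k - 2 * k = m by omega]
    field_simp

theorem r_eq (n N : ℕ) (h : n ≤ N) : (r n : ℚ) = ∑ k ∈ range (N + 1), F n k := by
  have h1 : (r n : ℚ) = ∑ k ∈ range (n + 1), F n k := by
    unfold r
    push_cast
    refine Finset.sum_congr rfl fun k _ => ?_
    rw [← F_eq]
  rw [h1]
  refine Finset.sum_subset (fun x hx => ?_) (fun x _ hx => ?_)
  · simp only [Finset.mem_range] at *; omega
  · apply F_zero
    simp only [Finset.mem_range] at hx
    omega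

/-- certificate -/
noncomputable def G (n k : ℕ) : ℚ :=
  -4 * ((n : ℚ) + 2) * ((n + k)! : ℚ) * rf ((n : ℤ) + 3 - k) * rf ((k : ℤ) - 1) ^ 2

theorem tele (n k : ℕ) :
    ((n : ℚ) + 3) * F (n + 3) k - (7 * n + 13) * F (n + 2) k + (7 * n + 15) * F (n + 1) k
      - (n + 1) * F n k = G n (k + 1) - G n k := by
  have e0 : rf ((k : ℤ) - 1) = (k : ℚ) * rf (k : ℤ) := by
    have := rf_step ((k : ℤ) - 1)
    rw [this]
    push_cast
    congr 1
    · ring
    · congr 1; ring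
  have e1 : rf ((n : ℤ) + 2 - k) = ((n : ℚ) + 3 - k) * rf ((n : ℤ) + 3 - k) := by
    have := rf_step ((n : ℤ) + 2 - k)
    rw [this]
    push_cast
    congr 1
    · ring
    · congr 1; ring
  have e2 : rf ((n : ℤ) + 1 - k) = ((n : ℚ) + 2 - k) * rf ((n : ℤ) + 2 - k) := by
    have := rf_step ((n : ℤ) + 1 - k)
    rw [this]
    push_cast
    congr 1
    · ring
    · congr 1; ring
  have e3 : rf ((n : ℤ) - k) = ((n : ℚ) + 1 - k) * rf ((n : ℤ) + 1 - k) := by
    have := rf_step ((n : ℤ) - k)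
    rw [this]
    push_cast
    congr 1
    · ring
    · congr 1; ring
  have f1 : ((n + 1 + k)! : ℚ) = ((n : ℚ) + k + 1) * ((n + k)! : ℚ) := by
    rw [show n + 1 + k = (n + k) + 1 by ring, Nat.factorial_succ]; push_cast; ring
  have f2 : ((n + 2 + k)! : ℚ) = ((n : ℚ) + k + 2) * ((n : ℚ) + k + 1) * ((n + k)! : ℚ) := by
    rw [show n + 2 + k = (n + k) + 1 + 1 by ring, Nat.factorial_succ, Nat.factorial_succ]
    push_cast; ring
  have f3 : ((n + 3 + k)! : ℚ)
      = ((n : ℚ) + k + 3) * ((n : ℚ) + k + 2) * ((n : ℚ) + k + 1) * ((n + k)! : ℚ) := by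
    rw [show n + 3 + k = (n + k) + 1 + 1 + 1 by ring, Nat.factorial_succ, Nat.factorial_succ,
      Nat.factorial_succ]
    push_cast; ring
  have f1' : ((n + (k + 1))! : ℚ) = ((n : ℚ) + k + 1) * ((n + k)! : ℚ) := by
    rw [show n + (k + 1) = (n + k) + 1 by ring, Nat.factorial_succ]; push_cast; ring
  have g3 : rf (((n + 3 : ℕ) : ℤ) - k) = rf ((n : ℤ) + 3 - k) := by push_cast; rfl
  have g2 : rf (((n + 2 : ℕ) : ℤ) - k) = rf ((n : ℤ) + 2 - k) := by push_cast; rfl
  have g1 : rf (((n + 1 : ℕ) : ℤ) - k) = rf ((n : ℤ) + 1 - k) := by push_cast; rfl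
  have g4 : rf ((n : ℤ) + 3 - ((k + 1 : ℕ) : ℤ)) = rf ((n : ℤ) + 2 - k) := by
    congr 1; push_cast; ring
  have g5 : rf (((k + 1 : ℕ) : ℤ) - 1) = rf (k : ℤ) := by
    congr 1; push_cast; ring
  unfold F G
  rw [g3, g2, g1, g4, g5, f1, f2, f3, f1', e3, e2, e1, e0]
  have h2 := two_k_sub_ne k
  generalize rf ((n : ℤ) + 3 - k) = x
  generalize rf (k : ℤ) = y
  generalize ((n + k)! : ℚ) = z
  have hw : (2 * (k : ℚ) - 1) * (2 * (k : ℚ) - 1)⁻¹ = 1 := mul_inv_cancel₀ h2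
  simp only [div_eq_mul_inv]
  generalize (2 * (k : ℚ) - 1)⁻¹ = w at hw ⊢
  linear_combination
    (x * y ^ 2 * z * (-4 * (n + 2) * ((n + k + 1) * (n + 3 - k) - k ^ 2))) * hw

theorem rec_q (n : ℕ) :
    ((n : ℚ) + 3) * (r (n + 3) : ℚ) - (7 * n + 13) * (r (n + 2) : ℚ)
      + (7 * n + 15) * (r (n + 1) : ℚ) - (n + 1) * (r n : ℚ) = 0 := by
  rw [r_eq (n + 3) (n + 3) le_rfl, r_eq (n + 2) (n + 3) (by omega),
    r_eq (n + 1) (n + 3) (by omega), r_eq n (n + 3) (by omega), Finset.mul_sum, Finset.mul_sum,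
    Finset.mul_sum, Finset.mul_sum, ← Finset.sum_sub_distrib, ← Finset.sum_add_distrib,
    ← Finset.sum_sub_distrib, Finset.sum_congr rfl (fun k _ => tele n k),
    Finset.sum_range_sub (G n)]
  unfold G
  rw [rf_neg (show ((n : ℤ) + 3 - ((n + 3 + 1 : ℕ) : ℤ)) < 0 by push_cast; omega),
    rf_neg (show (((0 : ℕ) : ℤ) - 1) < 0 by norm_num)]
  simp

theorem rec_z (n : ℕ) :
    ((n : ℤ) + 3) * r (n + 3) - (7 * n + 13) * r (n + 2) + (7 * n + 15) * r (n + 1)
      - (n + 1) * r n = 0 := by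
  have := rec_q n
  exact_mod_cast this

theorem r0 : r 0 = -1 := by simp [r, c]
theorem r1 : r 1 = 1 := by
  simp [r, c, Finset.sum_range_succ]
theorem r2 : r 2 = 7 := by
  simp [r, c, Finset.sum_range_succ, Nat.choose]

/-- the bracket of the closed form, at `n = m+1` -/
def B (m : ℕ) : ℤ :=
  (7 * (m : ℤ) + 6) * r (m + 1) ^ 2
    - (m + 2) * (r (m + 1) * r m + r (m + 2) * r (m + 1) + r (m + 2) * r m)

theorem closed (m : ℕ) :
    8 * ∑ k ∈ range (m + 1), (2 * (k : ℤ) + 1) * r k ^ 2 = (m + 1) * B m := by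
  induction m with
  | zero =>
    simp [B, r0, r1, r2]
  | succ m ih =>
    rw [Finset.sum_range_succ, mul_add, ih]
    have h := rec_z m
    unfold B
    push_cast
    rw [show m + 1 + 1 = m + 2 by ring, show m + 1 + 2 = m + 3 by ring]
    generalize r (m + 3) = d at *
    generalize r (m + 2) = a at *
    generalize r (m + 1) = b at *
    generalize r m = e at *
    linear_combination ((m + 2 : ℤ)) * (a + b) * h

end Pool.Agent.R312.RK
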