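import Mathlib
import Pool.Agent.R312.RK

/-!
The integers `r n` modulo `128`.
-/

set_option autoImplicit false

namespace Pool.Agent.R312.RK

open Finset Nat

variable {A : Type} [CommRing A]

/-- inverse of `2x-1` modulo `128` -/
def lam (x : A) : A := (2 * x - 1) ^ 31

/-- iterated differences of `lam` -/
def nu : ℕ → A → A
  | 0, x => lam x
  | m + 1, x => nu m x + nu m (x - 1)

/-- computable version of `lam` on natural numbers -/
def lamN (x : ℕ) : ℕ := (2 * x + 127) ^ 31 % 128

/-- computable version of `nu` on natural numbers -/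
def nuN : ℕ → ℕ → ℕ
  | 0, x => lamN x
  | m + 1, x => (nuN m x + nuN m (x + 127)) % 128

theorem lamN_check : ∀ x < 128, ((2 * x + 127) * lamN x) % 128 = 1 := by decide +kernel

theorem nuN_check : ∀ x < 128, nuN 7 x % 128 = 0 := by decide +kernel

theorem c127 (hA : (128 : A) = 0) : (127 : A) = -1 := by linear_combination hA

theorem cast_mod (hA : (128 : A) = 0) (n : ℕ) : ((n % 128 : ℕ) : A) = (n : A) := by
  conv_rhs => rw [← Nat.mod_add_div n 128]
  rw [Nat.cast_add, Nat.cast_mul]
  have : ((128 : ℕ) : A) = 0 := (Nat.cast_ofNat).trans hA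
  rw [this, zero_mul, add_zero]

theorem cast_eq (hA : (128 : A) = 0) {a b : ℕ} (h : a % 128 = b % 128) : (a : A) = (b : A) := by
  rw [← cast_mod hA a, h, cast_mod hA]

theorem lamN_eq (hA : (128 : A) = 0) (x : ℕ) : (lamN x : A) = lam (x : A) := by
  unfold lamN lam
  rw [cast_mod hA]
  push_cast
  rw [c127 hA]
  ring

theorem cast_sub_one (hA : (128 : A) = 0) (x : ℕ) : ((x + 127 : ℕ) : A) = (x : A) - 1 := by
  push_cast
  rw [c127 hA]
  ring

theorem nuN_eq (hA : (128 : A) = 0) (m x : ℕ) : (nuN m x : A) = nu m (x : A) := by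
  induction m generalizing x with
  | zero => exact lamN_eq hA x
  | succ m ih =>
    simp only [nuN, nu]
    rw [cast_mod hA, Nat.cast_add, ih, ih, cast_sub_one hA]

theorem lam_spec_lt (hA : (128 : A) = 0) (k : ℕ) (hk : k < 128) :
    (2 * (k : A) - 1) * lam (k : A) = 1 := by
  have h2 : (((2 * k + 127) * lamN k : ℕ) : A) = ((1 : ℕ) : A) :=
    cast_eq hA (by rw [lamN_check k hk])
  calc (2 * (k : A) - 1) * lam (k : A) = (((2 * k + 127) * lamN k : ℕ) : A) := by
        rw [← lamN_eq hA, Nat.cast_mul, Nat.cast_add, Nat.cast_mul, Nat.cast_ofNat,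
          Nat.cast_ofNat, c127 hA, sub_eq_add_neg]
    _ = 1 := by rw [h2, Nat.cast_one]

theorem lam_spec (hA : (128 : A) = 0) (n : ℕ) : (2 * (n : A) - 1) * lam (n : A) = 1 := by
  rw [← cast_mod hA n]
  exact lam_spec_lt hA _ (Nat.mod_lt _ (by norm_num))

theorem nu7_lt (hA : (128 : A) = 0) (k : ℕ) (hk : k < 128) : nu 7 (k : A) = 0 := by
  have h2 : ((nuN 7 k : ℕ) : A) = ((0 : ℕ) : A) :=
    cast_eq hA (by rw [nuN_check k hk])
  rw [nuN_eq hA, Nat.cast_zero] at h2
  exact h2

theorem nu7 (hA : (128 : A) = 0) (n : ℕ) : nu 7 (n : A) = 0 := by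
  rw [← cast_mod hA n]
  exact nu7_lt hA _ (Nat.mod_lt _ (by norm_num))

theorem nu_big (hA : (128 : A) = 0) (m n : ℕ) : nu (7 + m) (n : A) = 0 := by
  induction m generalizing n with
  | zero => exact nu7 hA n
  | succ m ih =>
    rw [← Nat.add_assoc]
    simp only [nu]
    rw [← cast_sub_one hA, ih, ih, add_zero]

theorem nu_sum (m : ℕ) (x : A) :
    nu m x = ∑ i ∈ range (m + 1), (m.choose i : A) * lam (x - i) := by
  induction m generalizing x with
  | zero => simp [nu]
  | succ m ih =>
    simp only [nu]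
    rw [ih, ih, Finset.sum_range_succ' _ (m + 1)]
    have e1 : ∑ k ∈ range (m + 1), ((m + 1).choose (k + 1) : A) * lam (x - ((k + 1 : ℕ)))
        = ∑ k ∈ range (m + 1), (m.choose k : A) * lam (x - 1 - k)
          + ∑ k ∈ range (m + 1), (m.choose (k + 1) : A) * lam (x - ((k + 1 : ℕ))) := by
      rw [← Finset.sum_add_distrib]
      refine Finset.sum_congr rfl fun k _ => ?_
      rw [Nat.choose_succ_succ]
      have : x - ((k + 1 : ℕ) : A) = x - 1 - k := by push_cast; ring
      rw [this]
      push_cast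
      ring
    have e2 : ∑ k ∈ range (m + 1), (m.choose (k + 1) : A) * lam (x - ((k + 1 : ℕ)))
        + lam x = ∑ i ∈ range (m + 1), (m.choose i : A) * lam (x - i) := by
      rw [Finset.sum_range_succ, Nat.choose_succ_self, Finset.sum_range_succ' _ m]
      simp
    rw [e1, ← e2]
    simp
    ring

theorem c_z (hA : (128 : A) = 0) (k : ℕ) : ((c k : ℤ) : A) = ((2 * k).choose k : A) * lam (k : A) := by
  have h := c_mul k
  have h2 : (((2 * (k : ℤ) - 1) * c k : ℤ) : A) = (((2 * k).choose k : ℤ) : A) := by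
    rw [h]
  push_cast at h2
  rw [← h2]
  have h3 := lam_spec hA k
  linear_combination (-(c k : A)) * h3

theorem choose_id (n m i : ℕ) (hm : m ≤ n) (hi : i ≤ n) :
    n.choose m * m.choose i = n.choose i * (n - i).choose (n - m) := by
  rcases Nat.lt_or_ge m i with h | h
  · rw [Nat.choose_eq_zero_of_lt h, Nat.choose_eq_zero_of_lt (by omega : n - i < n - m)]
    simp
  · rw [Nat.choose_mul h]
    congr 1
    rw [← Nat.choose_symm (by omega : n - m ≤ n - i)]
    congr 1
    omega

theorem vander (n i : ℕ) :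
    ∑ m ∈ range (n + 1), n.choose m * (n - i).choose (n - m) = (n + (n - i)).choose n := by
  rw [Nat.add_choose_eq, Finset.Nat.sum_antidiagonal_eq_sum_range_succ_mk]

theorem prod_id (n i : ℕ) (hi : i ≤ n) :
    (n + (n - i)).choose (2 * (n - i)) * (2 * (n - i)).choose (n - i)
      = n.choose i * (n + (n - i)).choose n := by
  obtain ⟨k, rfl⟩ : ∃ k, n = i + k := ⟨n - i, by omega⟩
  rw [show i + k - i = k by omega]
  have h1 := Nat.choose_mul_factorial_mul_factorial (show 2 * k ≤ i + k + k by omega)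
  have h2 := Nat.choose_mul_factorial_mul_factorial (show k ≤ 2 * k by omega)
  have h3 := Nat.choose_mul_factorial_mul_factorial (show i ≤ i + k by omega)
  have h4 := Nat.choose_mul_factorial_mul_factorial (show i + k ≤ i + k + k by omega)
  rw [show i + k + k - 2 * k = i by omega] at h1
  rw [show 2 * k - k = k by omega] at h2
  rw [show i + k - i = k by omega] at h3
  rw [show i + k + k - (i + k) = k by omega] at h4
  have hne : i ! * (k ! * k !) ≠ 0 := by positivity
  apply Nat.eq_of_mul_eq_mul_right (Nat.pos_of_ne_zero hne)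
  calc (i + k + k).choose (2 * k) * (2 * k).choose k * (i ! * (k ! * k !))
      = (i + k + k).choose (2 * k) * ((2 * k).choose k * k ! * k !) * i ! := by ring
    _ = (i + k + k)! := by rw [h2, h1]
    _ = (i + k + k).choose (i + k) * ((i + k).choose i * i ! * k !) * k ! := by rw [h3, h4]
    _ = _ := by ring

theorem key_id (n i : ℕ) (hi : i ≤ n) :
    (n + (n - i)).choose (2 * (n - i)) * (2 * (n - i)).choose (n - i)
      = ∑ m ∈ range (n + 1), n.choose m ^ 2 * m.choose i := by
  rw [prod_id n i hi, ← vander n i, Finset.mul_sum]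
  refine Finset.sum_congr rfl fun m hm => ?_
  have hm' : m ≤ n := by have := Finset.mem_range.mp hm; omega
  have := choose_id n m i hm' hi
  calc n.choose i * (n.choose m * (n - i).choose (n - m))
      = n.choose m * (n.choose i * (n - i).choose (n - m)) := by ring
    _ = n.choose m * (n.choose m * m.choose i) := by rw [this]
    _ = _ := by ring

/-- truncated formula -/
def g (n : ℕ) : A := ∑ m ∈ range 7, (n.choose m : A) ^ 2 * nu m (n : A)

theorem r_z (hA : (128 : A) = 0) (n : ℕ) : ((r n : ℤ) : A) = g n := by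
  have h1 : ((r n : ℤ) : A)
      = ∑ k ∈ range (n + 1), (((n + k).choose (2 * k) * (2 * k).choose k : ℕ) : A) * lam (k : A) := by
    unfold r
    push_cast
    refine Finset.sum_congr rfl fun k _ => ?_
    rw [c_z hA]
    ring
  rw [h1, ← Finset.sum_range_reflect]
  have h2 : ∀ i ∈ range (n + 1),
      (((n + (n + 1 - 1 - i)).choose (2 * (n + 1 - 1 - i))
        * (2 * (n + 1 - 1 - i)).choose (n + 1 - 1 - i) : ℕ) : A) * lam ((n + 1 - 1 - i : ℕ) : A)
      = ∑ m ∈ range (n + 1), (n.choose m : A) ^ 2 * ((m.choose i : A) * lam ((n : A) - i)) := by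
    intro i hi
    have hi' : i ≤ n := by have := Finset.mem_range.mp hi; omega
    rw [show n + 1 - 1 - i = n - i by omega, key_id n i hi', Nat.cast_sum, Finset.sum_mul]
    refine Finset.sum_congr rfl fun m _ => ?_
    rw [Nat.cast_sub hi']
    push_cast
    ring
  rw [Finset.sum_congr rfl h2, Finset.sum_comm]
  have h3 : ∀ m ∈ range (n + 1),
      ∑ i ∈ range (n + 1), (n.choose m : A) ^ 2 * ((m.choose i : A) * lam ((n : A) - i))
        = (n.choose m : A) ^ 2 * nu m (n : A) := by
    intro m hm
    have hm' : m ≤ n := by have := Finset.mem_range.mp hm; omega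
    rw [← Finset.mul_sum, nu_sum]
    congr 1
    symm
    refine Finset.sum_subset (fun x hx => ?_) (fun x _ hx => ?_)
    · simp only [Finset.mem_range] at *; omega
    · simp only [Finset.mem_range] at hx
      rw [Nat.choose_eq_zero_of_lt (by omega)]
      simp
  rw [Finset.sum_congr rfl h3]
  unfold g
  -- both equal the sum over `range (n + 8)`
  have e1 : ∑ m ∈ range (n + 1), (n.choose m : A) ^ 2 * nu m (n : A)
      = ∑ m ∈ range (n + 8), (n.choose m : A) ^ 2 * nu m (n : A) := by
    refine Finset.sum_subset (fun x hx => ?_) (fun x _ hx => ?_)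
    · simp only [Finset.mem_range] at *; omega
    · simp only [Finset.mem_range] at hx
      rw [Nat.choose_eq_zero_of_lt (by omega)]
      simp
  have e2 : ∑ m ∈ range 7, (n.choose m : A) ^ 2 * nu m (n : A)
      = ∑ m ∈ range (n + 8), (n.choose m : A) ^ 2 * nu m (n : A) := by
    refine Finset.sum_subset (fun x hx => ?_) (fun x _ hx => ?_)
    · simp only [Finset.mem_range] at *; omega
    · simp only [Finset.mem_range] at hx
      obtain ⟨j, rfl⟩ : ∃ j, x = 7 + j := ⟨x - 7, by omega⟩
      rw [nu_big hA]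
      simp
  rw [e1, e2]

theorem choose_period (hA : (128 : A) = 0) (n m : ℕ) (hm : m < 7) :
    (((n + 512).choose m : ℕ) : A) = ((n.choose m : ℕ) : A) := by
  rw [Nat.add_choose_eq, Finset.Nat.sum_antidiagonal_eq_sum_range_succ_mk, Nat.cast_sum,
    Finset.sum_range_succ, Nat.sub_self, Nat.choose_zero_right, Nat.mul_one]
  have : ∑ x ∈ range m, ((n.choose x * (512).choose (m - x) : ℕ) : A) = 0 := by
    refine Finset.sum_eq_zero fun x hx => ?_
    have hx' := Finset.mem_range.mp hx
    have h : ∀ b, 1 ≤ b → b < 7 → 128 ∣ (512).choose b := by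
      intro b h1 h2
      interval_cases b
      all_goals (norm_num [Nat.choose_eq_descFactorial_div_factorial, Nat.descFactorial,
        Nat.factorial])
    obtain ⟨q, hq⟩ := h (m - x) (by omega) (by omega)
    rw [hq, Nat.cast_mul, Nat.cast_mul]
    have h128 : ((128 : ℕ) : A) = 0 := (Nat.cast_ofNat).trans hA
    rw [h128, zero_mul, mul_zero]
  rw [this, zero_add]

theorem g_period (hA : (128 : A) = 0) (n : ℕ) : (g (n + 512) : A) = g n := by
  unfold g
  refine Finset.sum_congr rfl fun m hm => ?_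
  rw [choose_period hA n m (Finset.mem_range.mp hm)]
  congr 2
  push_cast
  have : (512 : A) = 0 := by linear_combination 4 * hA
  rw [this, add_zero]

/-- computable partial sums of `g` -/
def gS (n : ℕ) : ℕ → ℕ
  | 0 => 0
  | m + 1 => gS n m + (n.descFactorial m / m !) ^ 2 * nuN m n

theorem gS_eq (hA : (128 : A) = 0) (n M : ℕ) :
    (gS n M : A) = ∑ m ∈ range M, (n.choose m : A) ^ 2 * nu m (n : A) := by
  induction M with
  | zero => rw [gS, Finset.sum_range_zero, Nat.cast_zero]
  | succ M ih =>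
    rw [gS, Nat.cast_add, ih, Finset.sum_range_succ, ← Nat.choose_eq_descFactorial_div_factorial,
      Nat.cast_mul, Nat.cast_pow, nuN_eq hA]

/-- computable version of `g` -/
def gN (n : ℕ) : ℕ := gS n 7 % 128

theorem gN_eq (hA : (128 : A) = 0) (n : ℕ) : (gN n : A) = g n := by
  rw [gN, g, cast_mod hA, gS_eq hA]

/-- the bracket modulo `128` -/
def h (m : ℕ) : A :=
  (7 * (m : A) + 6) * g (m + 1) ^ 2
    - (m + 2) * (g (m + 1) * g m + g (m + 2) * g (m + 1) + g (m + 2) * g m) - 8 * (m + 1)

theorem h_period (hA : (128 : A) = 0) : Function.Periodic (h : ℕ → A) 512 := by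
  intro m
  unfold h
  rw [show m + 512 + 1 = (m + 1) + 512 by ring, show m + 512 + 2 = (m + 2) + 512 by ring,
    g_period hA, g_period hA, g_period hA]
  have : (512 : A) = 0 := by linear_combination 4 * hA
  push_cast
  rw [this]
  ring

/-- the finite check -/
def chk (m : ℕ) : Bool :=
  let a := gN m
  let b := gN (m + 1)
  let d := gN (m + 2)
  ((7 * m + 6) * b ^ 2 + 127 * ((m + 2) * (b * a + d * b + d * a))) % 128 == (8 * (m + 1)) % 128

theorem chk_all : (List.range 512).all chk = true := by decide +kernel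

theorem h_small (hA : (128 : A) = 0) (m : ℕ) (hm : m < 512) : (h m : A) = 0 := by
  have h1 : chk m = true := by
    have := chk_all
    rw [List.all_eq_true] at this
    exact this m (List.mem_range.mpr hm)
  unfold chk at h1
  simp only [beq_iff_eq] at h1
  have h2 : (((7 * m + 6) * gN (m + 1) ^ 2 + 127 * ((m + 2) * (gN (m + 1) * gN m
      + gN (m + 2) * gN (m + 1) + gN (m + 2) * gN m)) : ℕ) : A)
      = ((8 * (m + 1) : ℕ) : A) := cast_eq hA h1
  push_cast at h2
  rw [c127 hA, gN_eq hA, gN_eq hA, gN_eq hA] at h2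
  unfold h
  linear_combination h2

theorem h_zero (hA : (128 : A) = 0) (m : ℕ) : (h m : A) = 0 := by
  rw [← (h_period hA).map_mod_nat m]
  exact h_small hA _ (Nat.mod_lt _ (by norm_num))

theorem B_zero (hA : (128 : A) = 0) (m : ℕ) : ((B m - 8 * (m + 1) : ℤ) : A) = 0 := by
  rw [← h_zero hA m]
  unfold B h
  push_cast
  rw [r_z hA, r_z hA, r_z hA]

theorem B_mod (m : ℕ) : (128 : ℤ) ∣ B m - 8 * (m + 1) := by
  have hA : (128 : ZMod 128) = 0 := by
    have := ZMod.natCast_self 128
    exact_mod_cast this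
  have h2 := B_zero hA m
  exact_mod_cast (ZMod.intCast_zmod_eq_zero_iff_dvd _ 128).mp h2

theorem main (n : ℕ) (hn : 0 < n) :
    ∃ t : ℤ, ∑ k ∈ range n, (2 * (k : ℤ) + 1) * r k ^ 2 = (n : ℤ) ^ 2 + 16 * n * t := by
  obtain ⟨m, rfl⟩ : ∃ m, n = m + 1 := ⟨n - 1, by omega⟩
  obtain ⟨t, ht⟩ := B_mod m
  refine ⟨t, ?_⟩
  have h := closed m
  have hB : B m = 8 * (m + 1) + 128 * t := by linarith
  rw [hB] at h
  push_cast
  linarith

end Pool.Agent.R312.RK
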