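import Mathlib
import Pool.Agent.R440.WZ
import Pool.Agent.R312.WZ

/-!
Integrality of `u_n(k) = (3n)! (2n+2k)! (2m)! / (2 (2n+1)! (n+k)! m!² (2n+k)!)`, `m = n-k-1`, and the
3-adic valuation of `u_n(0)`.
-/

set_option autoImplicit false

namespace Pool.Agent.R312.U

open Finset Nat Pool.Agent.R440

theorem floor_int (q a b x y : ℤ) (hq : 2 ≤ q) (hx0 : 0 ≤ x) (hx : x < q) (hy0 : 0 ≤ y)
    (hy : y < q) :
    (2 * (q * a + x) + 1) / q + ((q * a + x) + (q * b + y)) / q
      + (((q * a + x) - (q * b + y) - 1) / q + ((q * a + x) - (q * b + y) - 1) / q)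
      + (2 * (q * a + x) + (q * b + y)) / q
    ≤ (3 * (q * a + x)) / q + (2 * (q * a + x) + 2 * (q * b + y)) / q
      + (2 * ((q * a + x) - (q * b + y) - 1)) / q := by
  have h0 : q ≠ 0 := by omega
  have hq0 : 0 < q := by omega
  rw [show 2 * (q * a + x) + 1 = (2 * x + 1) + q * (2 * a) by ring,
    show (q * a + x) + (q * b + y) = (x + y) + q * (a + b) by ring,
    show (q * a + x) - (q * b + y) - 1 = (x - y - 1) + q * (a - b) by ring,
    show 2 * (q * a + x) + (q * b + y) = (2 * x + y) + q * (2 * a + b) by ring,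
    show 3 * (q * a + x) = 3 * x + q * (3 * a) by ring,
    show 2 * (q * a + x) + 2 * (q * b + y) = (2 * x + 2 * y) + q * (2 * a + 2 * b) by ring,
    show 2 * ((x - y - 1) + q * (a - b)) = (2 * x - 2 * y - 2) + q * (2 * a - 2 * b) by ring,
    Int.add_mul_ediv_left _ _ h0, Int.add_mul_ediv_left _ _ h0, Int.add_mul_ediv_left _ _ h0,
    Int.add_mul_ediv_left _ _ h0, Int.add_mul_ediv_left _ _ h0, Int.add_mul_ediv_left _ _ h0,
    Int.add_mul_ediv_left _ _ h0]
  obtain ⟨l1, u1, c1, d1⟩ := fl_spec (2 * x + 1) q 0 1 hq0 (by linarith) (by linarith)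
  obtain ⟨l2, u2, c2, d2⟩ := fl_spec (x + y) q 0 1 hq0 (by linarith) (by linarith)
  obtain ⟨l3, u3, c3, d3⟩ := fl_spec (x - y - 1) q (-1) 0 hq0 (by linarith) (by linarith)
  obtain ⟨l4, u4, c4, d4⟩ := fl_spec (2 * x + y) q 0 2 hq0 (by linarith) (by linarith)
  obtain ⟨l5, u5, c5, d5⟩ := fl_spec (3 * x) q 0 2 hq0 (by linarith) (by linarith)
  obtain ⟨l6, u6, c6, d6⟩ := fl_spec (2 * x + 2 * y) q 0 3 hq0 (by linarith) (by linarith)
  obtain ⟨l7, u7, c7, d7⟩ := fl_spec (2 * x - 2 * y - 2) q (-2) 1 hq0 (by linarith) (by linarith)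
  generalize (2 * x + 1) / q = A at *
  generalize (x + y) / q = B at *
  generalize (x - y - 1) / q = C at *
  generalize (2 * x + y) / q = D at *
  generalize (3 * x) / q = E at *
  generalize (2 * x + 2 * y) / q = F at *
  generalize (2 * x - 2 * y - 2) / q = G at *
  by_contra hcon
  interval_cases A <;> interval_cases B <;> interval_cases C <;> interval_cases D <;>
    first | omega | (interval_cases E <;> interval_cases F <;> interval_cases G <;> omega)

/-- the floor inequality behind the integrality -/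
theorem floor_ineq (n k q : ℕ) (hq : 2 ≤ q) (hk : k < n) :
    (2 * n + 1) / q + (n + k) / q + ((n - k - 1) / q + (n - k - 1) / q) + (2 * n + k) / q
      ≤ (3 * n) / q + (2 * n + 2 * k) / q + (2 * (n - k - 1)) / q := by
  have h := floor_int q (n / q : ℕ) (k / q : ℕ) (n % q : ℕ) (k % q : ℕ) (by exact_mod_cast hq)
    (by positivity) (by exact_mod_cast Nat.mod_lt _ (by omega)) (by positivity)
    (by exact_mod_cast Nat.mod_lt _ (by omega))
  have hn : ((q : ℤ) * (n / q : ℕ) + (n % q : ℕ)) = n := by exact_mod_cast Nat.div_add_mod n q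
  have hkk : ((q : ℤ) * (k / q : ℕ) + (k % q : ℕ)) = k := by exact_mod_cast Nat.div_add_mod k q
  rw [hn, hkk] at h
  have e : ((n : ℤ) - k - 1) = ((n - k - 1 : ℕ) : ℤ) := by omega
  rw [e] at h
  exact_mod_cast h

/-- integrality without the factor `2` -/
theorem dvd_one (n k : ℕ) (hk : k < n) :
    (2 * n + 1)! * (n + k)! * (n - k - 1)! * (n - k - 1)! * (2 * n + k)! ∣
      (3 * n)! * (2 * n + 2 * k)! * (2 * (n - k - 1))! := by
  have h := prod_fac_dvd [3 * n, 2 * n + 2 * k, 2 * (n - k - 1)]
    [2 * n + 1, n + k, n - k - 1, n - k - 1, 2 * n + k] (by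
    intro q hq
    have := floor_ineq n k q hq hk
    simp only [List.map_cons, List.map_nil, List.sum_cons, List.sum_nil]
    omega)
  simp only [List.map_cons, List.map_nil, List.prod_cons, List.prod_nil, mul_one] at h
  convert h using 1 <;> ring

/-- the 2-adic valuation gains one -/
theorem v2_gain (n k : ℕ) (hn : 2 ≤ n) (hk : k < n) :
    ((2 * n + 1)! * (n + k)! * (n - k - 1)! * (n - k - 1)! * (2 * n + k)!).factorization 2 + 1
      ≤ ((3 * n)! * (2 * n + 2 * k)! * (2 * (n - k - 1))!).factorization 2 := by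
  obtain ⟨m, hm⟩ : ∃ m, m = n - k - 1 := ⟨_, rfl⟩
  rw [← hm]
  have hc := Nat.choose_mul_factorial_mul_factorial (n := 3 * n - 1) (k := m) (by omega)
  rw [show 3 * n - 1 - m = 2 * n + k by omega] at hc
  have hc2 := congrArg (fun x => Nat.factorization x 2) hc
  have hch : (3 * n - 1).choose m ≠ 0 := (Nat.choose_pos (by omega)).ne'
  rw [Nat.factorization_mul (mul_ne_zero hch (Nat.factorial_ne_zero _)) (Nat.factorial_ne_zero _),
    Nat.factorization_mul hch (Nat.factorial_ne_zero _), Finsupp.add_apply, Finsupp.add_apply] at hc2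
  have h3 : (3 * n)! = 3 * n * (3 * n - 1)! := by
    rw [show 3 * n = 3 * n - 1 + 1 by omega, Nat.factorial_succ]
    congr 1
  have h4 : n ! = n * (n - 1)! := by
    rw [show n = n - 1 + 1 by omega, Nat.factorial_succ]
    congr 1
  rw [Nat.factorization_mul (by positivity) (by positivity),
    Nat.factorization_mul (by positivity) (by positivity),
    Nat.factorization_mul (by positivity) (by positivity),
    Nat.factorization_mul (by positivity) (by positivity),
    Nat.factorization_mul (by positivity) (by positivity),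
    Nat.factorization_mul (by positivity) (by positivity),
    Finsupp.add_apply, Finsupp.add_apply, Finsupp.add_apply, Finsupp.add_apply,
    Finsupp.add_apply, Finsupp.add_apply, v2_odd,
    show 2 * n + 2 * k = 2 * (n + k) by ring, v2_even, v2_even, h3,
    Nat.factorization_mul (by omega) (by positivity), Finsupp.add_apply,
    Nat.factorization_mul (by norm_num) (by omega), Finsupp.add_apply, h4,
    Nat.factorization_mul (by omega) (by positivity), Finsupp.add_apply]
  have h5 := v2_lt (m := n - 1) (by omega)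
  omega

/-- integrality of the summands -/
theorem dvd_two (n k : ℕ) (hn : 2 ≤ n) (hk : k < n) :
    ∃ t : ℕ, (3 * n)! * (2 * n + 2 * k)! * (2 * (n - k - 1))!
      = 2 * ((2 * n + 1)! * (n + k)! * (n - k - 1)! * (n - k - 1)! * (2 * n + k)!) * t := by
  obtain ⟨t, hT⟩ := dvd_one n k hk
  have hD : (2 * n + 1)! * (n + k)! * (n - k - 1)! * (n - k - 1)! * (2 * n + k)! ≠ 0 := by
    positivity
  have hT0 : t ≠ 0 := by
    rintro rfl
    rw [mul_zero] at hT
    have : (3 * n)! * (2 * n + 2 * k)! * (2 * (n - k - 1))! ≠ 0 := by positivity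
    exact this hT
  have h := v2_gain n k hn hk
  rw [hT, Nat.factorization_mul hD hT0, Finsupp.add_apply] at h
  have h2 : 2 ∣ t := (Nat.prime_two.dvd_iff_one_le_factorization hT0).mpr (by omega)
  obtain ⟨s, rfl⟩ := h2
  exact ⟨s, by rw [hT]; ring⟩

/-- `v₃(n!)` -/
noncomputable def g (n : ℕ) : ℕ := (n !).factorization 3

theorem g_zero : g 0 = 0 := by simp [g]

theorem g_three (n : ℕ) : g (3 * n) = g n + n := Nat.factorization_factorial_mul Nat.prime_three

theorem g_three_one (n : ℕ) : g (3 * n + 1) = g n + n := by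
  rw [← g_three]
  unfold g
  rw [Nat.factorial_succ, Nat.factorization_mul (by omega) (Nat.factorial_ne_zero _),
    Finsupp.add_apply, Nat.factorization_eq_zero_of_not_dvd (by omega), zero_add]

theorem g_three_two (n : ℕ) : g (3 * n + 2) = g n + n := by
  rw [← g_three_one]
  unfold g
  rw [Nat.factorial_succ (3 * n + 1), Nat.factorization_mul (by omega) (Nat.factorial_ne_zero _),
    Finsupp.add_apply, Nat.factorization_eq_zero_of_not_dvd (by omega), zero_add]

theorem g_lt {n : ℕ} (hn : n ≠ 0) : 2 * g n < n := by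
  have : Fact (Nat.Prime 3) := ⟨Nat.prime_three⟩
  have h := sub_one_mul_padicValNat_factorial_lt_of_ne_zero 3 hn
  unfold g
  rw [Nat.factorization_def _ Nat.prime_three]
  simpa using h

theorem g_pow (m n : ℕ) (h : 2 * n + 1 = 3 ^ m) : g (2 * n + 1) = n ∧ g (2 * n) = 2 * g n := by
  induction m generalizing n with
  | zero =>
    have : n = 0 := by simpa using h
    subst this
    constructor
    · simp [g]
    · simp [g]
  | succ m ih =>
    have hodd : Odd (3 ^ m : ℕ) := Odd.pow (by decide)
    obtain ⟨r, hr⟩ := hodd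
    obtain ⟨i1, i2⟩ := ih r hr.symm
    have hn : n = 3 * r + 1 := by
      rw [pow_succ, hr] at h
      omega
    subst hn
    constructor
    · rw [show 2 * (3 * r + 1) + 1 = 3 * (2 * r + 1) by ring, g_three, i1]
      ring
    · rw [show 2 * (3 * r + 1) = 3 * (2 * r) + 2 by ring, g_three_two, g_three_one, i2]
      ring

theorem g_not_pow (N : ℕ) (hN : N % 2 = 1) (h : ∀ m, N ≠ 3 ^ m) : 2 * g N + 3 ≤ N := by
  induction N using Nat.strong_induction_on with
  | _ N ih =>
    obtain ⟨q, r, hr, hN'⟩ : ∃ q r, r < 3 ∧ N = 3 * q + r :=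
      ⟨N / 3, N % 3, Nat.mod_lt _ (by norm_num), (Nat.div_add_mod N 3).symm⟩
    have hN1 : N ≠ 1 := by
      have := h 0
      simpa using this
    interval_cases r
    · have hq : ∀ m, q ≠ 3 ^ m := by
        intro m hm
        apply h (m + 1)
        rw [hN', hm, pow_succ]
        ring
      have h2 := ih q (by omega) (by omega) hq
      rw [hN', add_zero, g_three]
      omega
    · have h2 := g_lt (n := q) (by omega)
      rw [hN', g_three_one]
      omega
    · have h2 := g_lt (n := q) (by omega)
      rw [hN', g_three_two]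
      omega

/-- The 3-adic valuation of `u_n(0)`. -/
theorem v3_u (n t : ℕ) (hn : 2 ≤ n)
    (ht : (3 * n)! * (2 * n + 2 * 0)! * (2 * (n - 0 - 1))!
      = 2 * ((2 * n + 1)! * (n + 0)! * (n - 0 - 1)! * (n - 0 - 1)! * (2 * n + 0)!) * t) :
    3 ∣ t ↔ ∀ m, 2 * n + 1 ≠ 3 ^ m := by
  simp only [mul_zero, add_zero, Nat.sub_zero] at ht
  have ht0 : t ≠ 0 := by
    rintro rfl
    rw [mul_zero] at ht
    have : (3 * n)! * (2 * n)! * (2 * (n - 1))! ≠ 0 := by positivity
    exact this ht
  have h1 := congrArg (fun x => Nat.factorization x 3) ht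
  rw [Nat.factorization_mul (by positivity) (by positivity),
    Nat.factorization_mul (by positivity) (by positivity),
    Nat.factorization_mul (by positivity) ht0,
    Nat.factorization_mul (by norm_num) (by positivity),
    Nat.factorization_mul (by positivity) (by positivity),
    Nat.factorization_mul (by positivity) (by positivity),
    Nat.factorization_mul (by positivity) (by positivity),
    Nat.factorization_mul (by positivity) (by positivity)] at h1
  simp only [Finsupp.add_apply] at h1
  have e2 : (2 : ℕ).factorization 3 = 0 := Nat.factorization_eq_zero_of_not_dvd (by norm_num)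
  have h3 : ((3 * n)!).factorization 3 = g n + n := g_three n
  rw [e2, h3] at h1
  have h4 : (n !).factorization 3 = g n := rfl
  have h5 : ((2 * n + 1)!).factorization 3 = g (2 * n + 1) := rfl
  have h6 : ((2 * (n - 1))!).factorization 3 = g (2 * (n - 1)) := rfl
  have h7 : ((n - 1)!).factorization 3 = g (n - 1) := rfl
  rw [h4, h5, h6, h7] at h1
  rw [Nat.prime_three.dvd_iff_one_le_factorization ht0]
  have hsuper : 2 * g (n - 1) ≤ g (2 * (n - 1)) := by
    have hd : (n - 1)! * (n - 1)! ∣ (2 * (n - 1))! := by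
      have := Nat.factorial_mul_factorial_dvd_factorial_add (n - 1) (n - 1)
      rwa [← two_mul] at this
    have h8 := (Nat.factorization_le_iff_dvd (by positivity) (by positivity)).mpr hd 3
    rw [Nat.factorization_mul (by positivity) (by positivity), Finsupp.add_apply] at h8
    unfold g
    omega
  constructor
  · intro hle m hm
    obtain ⟨i1, -⟩ := g_pow m n hm
    rcases m with _ | m
    · simp at hm
      omega
    · have hodd : Odd (3 ^ m : ℕ) := Odd.pow (by decide)
      obtain ⟨r, hr⟩ := hodd
      obtain ⟨-, i4⟩ := g_pow m r hr.symm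
      have hn' : n = 3 * r + 1 := by
        rw [pow_succ, hr] at hm
        omega
      have h9 : g (2 * (n - 1)) = 2 * g (n - 1) := by
        rw [hn', show 3 * r + 1 - 1 = 3 * r by omega, show 2 * (3 * r) = 3 * (2 * r) by ring,
          g_three, g_three, i4]
        ring
      omega
  · intro hm
    have h10 := g_not_pow (2 * n + 1) (by omega) hm
    omega

end Pool.Agent.R312.U
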