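import Mathlib
import Pool.Agent.R440.WZ
import Pool.Agent.R312.WZ
import Pool.Agent.R312.U

/-!
Arithmetic of `τ(n,m) = C(2m,m) C(3n-1,n+m)` and of its alternating sum.
-/

set_option autoImplicit false

namespace Pool.Agent.R312.V

open Finset Nat Pool.Agent.R440 Pool.Agent.R312.U

theorem floor_int (q a b x y : ℤ) (hq : 2 ≤ q) (hx0 : 0 ≤ x) (hx : x < q) (hy0 : 0 ≤ y)
    (hy : y < q) :
    (2 * (q * a + x) + 1) / q + 2 / q + ((q * a + x) + (q * b + y)) / q
      + (2 * (q * a + x) - 1 - (q * b + y)) / q + (q * b + y) / q + (q * b + y) / q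
    ≤ 3 / q + (2 * (q * a + x)) / q + (2 * (q * b + y)) / q + (3 * (q * a + x) - 1) / q := by
  have h0 : q ≠ 0 := by omega
  have hq0 : 0 < q := by omega
  rw [show 2 * (q * a + x) + 1 = (2 * x + 1) + q * (2 * a) by ring,
    show (q * a + x) + (q * b + y) = (x + y) + q * (a + b) by ring,
    show 2 * (q * a + x) - 1 - (q * b + y) = (2 * x - 1 - y) + q * (2 * a - b) by ring,
    show (q * b + y) = y + q * b by ring,
    show 2 * (y + q * b) = 2 * y + q * (2 * b) by ring,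
    show 3 * (q * a + x) - 1 = 3 * x - 1 + q * (3 * a) by ring,
    show 2 * (q * a + x) = 2 * x + q * (2 * a) by ring,
    Int.add_mul_ediv_left _ _ h0, Int.add_mul_ediv_left _ _ h0, Int.add_mul_ediv_left _ _ h0,
    Int.add_mul_ediv_left _ _ h0, Int.add_mul_ediv_left _ _ h0, Int.add_mul_ediv_left _ _ h0,
    Int.add_mul_ediv_left _ _ h0]
  obtain ⟨l1, u1, c1, d1⟩ := fl_spec (2 * x + 1) q 0 1 hq0 (by linarith) (by linarith)
  obtain ⟨l2, u2, c2, d2⟩ := fl_spec (x + y) q 0 1 hq0 (by linarith) (by linarith)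
  obtain ⟨l3, u3, c3, d3⟩ := fl_spec (2 * x - 1 - y) q (-1) 1 hq0 (by linarith) (by linarith)
  obtain ⟨l4, u4, c4, d4⟩ := fl_spec (2 * x) q 0 1 hq0 (by linarith) (by linarith)
  obtain ⟨l5, u5, c5, d5⟩ := fl_spec (2 * y) q 0 1 hq0 (by linarith) (by linarith)
  obtain ⟨l6, u6, c6, d6⟩ := fl_spec (3 * x - 1) q (-1) 2 hq0 (by linarith) (by linarith)
  obtain ⟨l7, u7, c7, d7⟩ := fl_spec y q 0 0 hq0 (by linarith) (by linarith)
  obtain ⟨l8, u8, c8, d8⟩ := fl_spec 3 q 0 1 hq0 (by linarith) (by linarith)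
  obtain ⟨l9, u9, c9, d9⟩ := fl_spec 2 q 0 1 hq0 (by linarith) (by linarith)
  generalize (2 * x + 1) / q = A at *
  generalize (x + y) / q = B at *
  generalize (2 * x - 1 - y) / q = C at *
  generalize (2 * x) / q = D at *
  generalize (2 * y) / q = E at *
  generalize (3 * x - 1) / q = F at *
  generalize y / q = G at *
  generalize 3 / q = H at *
  generalize 2 / q = I at *
  by_contra hcon
  interval_cases A <;> interval_cases B <;> interval_cases C <;> interval_cases D <;>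
    (first | omega | skip) <;> interval_cases E <;> (first | omega | skip) <;>
    interval_cases F <;> (first | omega | skip) <;> interval_cases G <;>
    interval_cases H <;> interval_cases I <;> omega


theorem floor_nat (n m q : ℕ) (hq : 2 ≤ q) (hm : m < n) :
    (2 * n + 1) / q + 2 / q + (n + m) / q + (2 * n - 1 - m) / q + m / q + m / q
      ≤ 3 / q + (2 * n) / q + (2 * m) / q + (3 * n - 1) / q := by
  have h := floor_int q (n / q : ℕ) (m / q : ℕ) (n % q : ℕ) (m % q : ℕ) (by exact_mod_cast hq)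
    (by positivity) (by exact_mod_cast Nat.mod_lt _ (by omega)) (by positivity)
    (by exact_mod_cast Nat.mod_lt _ (by omega))
  have hn : ((q : ℤ) * (n / q : ℕ) + (n % q : ℕ)) = n := by exact_mod_cast Nat.div_add_mod n q
  have hkk : ((q : ℤ) * (m / q : ℕ) + (m % q : ℕ)) = m := by exact_mod_cast Nat.div_add_mod m q
  rw [hn, hkk] at h
  have e : (2 * (n : ℤ) - 1 - m) = ((2 * n - 1 - m : ℕ) : ℤ) := by omega
  have e' : (3 * (n : ℤ) - 1) = ((3 * n - 1 : ℕ) : ℤ) := by omega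
  rw [e, e'] at h
  exact_mod_cast h

/-- `τ(n,m) = C(2m,m) C(3n-1,n+m)` -/
def τ (n m : ℕ) : ℕ := (2 * m).choose m * (3 * n - 1).choose (n + m)

theorem τ_fac (n m : ℕ) (hm : m < n) :
    τ n m * (m ! * m ! * ((n + m)! * (2 * n - 1 - m)!)) = (2 * m)! * (3 * n - 1)! := by
  have h1 := Nat.choose_mul_factorial_mul_factorial (n := 2 * m) (k := m) (by omega)
  have h2 := Nat.choose_mul_factorial_mul_factorial (n := 3 * n - 1) (k := n + m) (by omega)
  rw [show 2 * m - m = m by omega] at h1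
  rw [show 3 * n - 1 - (n + m) = 2 * n - 1 - m by omega] at h2
  rw [← h1, ← h2]
  unfold τ
  ring

theorem dvd_three (n m : ℕ) (hm : m < n) : 2 * n + 1 ∣ 3 * τ n m := by
  have h := prod_fac_dvd [3, 2 * n, 2 * m, 3 * n - 1]
    [2 * n + 1, 2, n + m, 2 * n - 1 - m, m, m] (by
    intro q hq
    have := floor_nat n m q hq hm
    simp only [List.map_cons, List.map_nil, List.sum_cons, List.sum_nil]
    omega)
  simp only [List.map_cons, List.map_nil, List.prod_cons, List.prod_nil, mul_one] at h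
  have e : 3 ! * ((2 * n)! * ((2 * m)! * (3 * n - 1)!))
      = (3 * τ n m) * (2 * (2 * n)! * (m ! * m ! * ((n + m)! * (2 * n - 1 - m)!))) := by
    rw [← τ_fac n m hm, show (3 : ℕ)! = 6 by rfl]
    ring
  rw [e, Nat.factorial_succ (2 * n), show (2 : ℕ)! = 2 by rfl,
    show (2 * n + 1) * (2 * n)! * (2 * ((n + m)! * ((2 * n - 1 - m)! * (m ! * m !))))
      = (2 * n + 1) * (2 * (2 * n)! * (m ! * m ! * ((n + m)! * (2 * n - 1 - m)!))) by ring] at h
  exact Nat.dvd_of_mul_dvd_mul_right (by positivity) h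

theorem dvd_mod_two (n m : ℕ) (hm : m < n) (hn : n % 3 = 1) (hmm : m % 3 = 2) :
    2 * n + 1 ∣ τ n m := by
  have h := prod_fac_dvd [2 * n, 2 * m, 3 * n - 1]
    [2 * n + 1, n + m, 2 * n - 1 - m, m, m] (by
    intro q hq
    have h1 := floor_nat n m q hq hm
    simp only [List.map_cons, List.map_nil, List.sum_cons, List.sum_nil]
    by_cases h3 : q = 3
    · subst h3
      omega
    · have h2 : 3 / q = 2 / q := by
        by_cases h4 : q = 2
        · subst h4; rfl
        · rw [Nat.div_eq_of_lt (by omega), Nat.div_eq_of_lt (by omega)]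
      omega)
  simp only [List.map_cons, List.map_nil, List.prod_cons, List.prod_nil, mul_one] at h
  have e : (2 * n)! * ((2 * m)! * (3 * n - 1)!)
      = (τ n m) * ((2 * n)! * (m ! * m ! * ((n + m)! * (2 * n - 1 - m)!))) := by
    rw [← τ_fac n m hm]
    ring
  rw [e, Nat.factorial_succ (2 * n),
    show (2 * n + 1) * (2 * n)! * ((n + m)! * ((2 * n - 1 - m)! * (m ! * m !)))
      = (2 * n + 1) * ((2 * n)! * (m ! * m ! * ((n + m)! * (2 * n - 1 - m)!))) by ring] at h
  exact Nat.dvd_of_mul_dvd_mul_right (by positivity) h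

theorem τ_succ (n m : ℕ) :
    (m + 1) * (n + m + 1) * τ n (m + 1) = 2 * (2 * m + 1) * (3 * n - 1 - (n + m)) * τ n m := by
  have h1 := Nat.succ_mul_centralBinom_succ m
  have h2 := Nat.choose_succ_right_eq (3 * n - 1) (n + m)
  unfold Nat.centralBinom at h1
  unfold τ
  rw [show n + (m + 1) = n + m + 1 by ring]
  calc (m + 1) * (n + m + 1) * ((2 * (m + 1)).choose (m + 1) * (3 * n - 1).choose (n + m + 1))
      = ((m + 1) * (2 * (m + 1)).choose (m + 1))
        * ((3 * n - 1).choose (n + m + 1) * (n + m + 1)) := by ring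
    _ = _ := by rw [h1, h2]; ring

theorem three_coprime_pow {v a : ℕ} (h : a % 3 ≠ 0) : IsCoprime ((3 : ℤ) ^ v) (a : ℤ) := by
  refine IsCoprime.pow_left ?_
  have : Nat.Coprime 3 a := (Nat.Prime.coprime_iff_not_dvd Nat.prime_three).mpr (by omega)
  exact Nat.isCoprime_iff_coprime.mpr this

theorem pair (r j v : ℕ) (hv : 3 ^ v ∣ 2 * (3 * r + 1) + 1) (hj : j < r) :
    (3 : ℤ) ^ v ∣ (τ (3 * r + 1) (3 * j) : ℤ) - τ (3 * r + 1) (3 * j + 1) := by
  have h1 := τ_succ (3 * r + 1) (3 * j)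
  have h2 : (3 * (3 * r + 1) - 1 - (3 * r + 1 + 3 * j)) = 6 * r + 1 - 3 * j := by omega
  rw [h2] at h1
  obtain ⟨s, hs⟩ : ∃ s, 6 * r + 1 - 3 * j = 3 * s + 1 := ⟨2 * r - j, by omega⟩
  have hs' : s = 2 * r - j := by omega
  rw [hs] at h1
  have h3 : (3 : ℤ) ^ v ∣ 3 * (τ (3 * r + 1) (3 * j) : ℤ) := by
    have := hv.trans (dvd_three (3 * r + 1) (3 * j) (by omega))
    exact_mod_cast this
  have h4 : (((3 * j + 1) * (3 * r + 3 * j + 2) : ℕ) : ℤ) *
      ((τ (3 * r + 1) (3 * j) : ℤ) - τ (3 * r + 1) (3 * j + 1))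
      = (3 * (τ (3 * r + 1) (3 * j) : ℤ)) *
        ((3 * j + 1) * (r + j) + 2 * j - 2 * (2 * j) * (3 * s + 1) - 2 * s) := by
    have h5 : (((3 * j + 1) * (3 * r + 3 * j + 2) : ℕ) : ℤ) * (τ (3 * r + 1) (3 * j + 1) : ℤ)
        = 2 * (2 * (3 * j) + 1) * (3 * s + 1) * (τ (3 * r + 1) (3 * j) : ℤ) := by
      have h6 : (3 * j + 1) * (3 * r + 3 * j + 2) * τ (3 * r + 1) (3 * j + 1)
          = 2 * (2 * (3 * j) + 1) * (3 * s + 1) * τ (3 * r + 1) (3 * j) := by
        rw [← h1]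
        ring
      exact_mod_cast h6
    rw [mul_sub, h5]
    push_cast
    ring
  have h5 : (3 : ℤ) ^ v ∣ (((3 * j + 1) * (3 * r + 3 * j + 2) : ℕ) : ℤ) *
      ((τ (3 * r + 1) (3 * j) : ℤ) - τ (3 * r + 1) (3 * j + 1)) := by
    rw [h4]
    exact h3.mul_right _
  refine (three_coprime_pow ?_).dvd_of_dvd_mul_left h5
  have e : (3 * j + 1) * (3 * r + 3 * j + 2) = 3 * ((3 * j + 1) * (r + j) + 2 * j) + 2 := by ring
  omega

theorem dig (v : ℕ) : ∀ r, 3 ^ v ∣ 2 * r + 1 →
    (2 * r + 1 ≠ 3 ^ v → 2 * g r + v + 1 ≤ r) ∧ (2 * r + 1 = 3 ^ v → r = 2 * g r + v) := by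
  induction v with
  | zero =>
    intro r _
    constructor
    · intro h
      have : r ≠ 0 := by rintro rfl; simp at h
      have := g_lt this
      omega
    · intro h
      have : r = 0 := by rw [pow_zero] at h; omega
      subst this
      simp [g_zero]
  | succ v ih =>
    intro r hr
    have h3 : 3 ∣ 2 * r + 1 := (dvd_pow_self 3 (by omega)).trans hr
    obtain ⟨s, rfl⟩ : ∃ s, r = 3 * s + 1 := ⟨(r - 1) / 3, by omega⟩
    have e : 2 * (3 * s + 1) + 1 = 3 * (2 * s + 1) := by ring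
    rw [e, pow_succ'] at hr
    obtain ⟨i1, i2⟩ := ih s (Nat.dvd_of_mul_dvd_mul_left (by norm_num) hr)
    rw [g_three_one, e, pow_succ']
    constructor
    · intro h
      have := i1 (by intro h'; apply h; rw [h'])
      omega
    · intro h
      have := i2 (by omega)
      omega

theorem v3_last (r : ℕ) :
    (τ (3 * r + 1) (3 * r)).factorization 3 + 2 * g r = r := by
  have h := τ_fac (3 * r + 1) (3 * r) (by omega)
  have ht0 : τ (3 * r + 1) (3 * r) ≠ 0 := by
    intro h0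
    rw [h0, zero_mul] at h
    have : (2 * (3 * r))! * (3 * (3 * r + 1) - 1)! ≠ 0 := by positivity
    exact this h.symm
  have h1 := congrArg (fun x => Nat.factorization x 3) h
  rw [Nat.factorization_mul ht0 (by positivity),
    Nat.factorization_mul (by positivity) (by positivity),
    Nat.factorization_mul (by positivity) (by positivity),
    Nat.factorization_mul (by positivity) (by positivity),
    Nat.factorization_mul (by positivity) (by positivity)] at h1
  simp only [Finsupp.add_apply] at h1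
  have a1 : ((3 * r)!).factorization 3 = g r + r := g_three r
  have a2 : ((3 * r + 1 + 3 * r)!).factorization 3 = g (2 * r) + 2 * r := by
    rw [show 3 * r + 1 + 3 * r = 3 * (2 * r) + 1 by ring]
    exact g_three_one (2 * r)
  have a3 : ((2 * (3 * r + 1) - 1 - 3 * r)!).factorization 3 = g r + r := by
    rw [show 2 * (3 * r + 1) - 1 - 3 * r = 3 * r + 1 by omega]
    exact g_three_one r
  have a4 : ((2 * (3 * r))!).factorization 3 = g (2 * r) + 2 * r := by
    rw [show 2 * (3 * r) = 3 * (2 * r) by ring]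
    exact g_three (2 * r)
  have a5 : ((3 * (3 * r + 1) - 1)!).factorization 3 = g r + r + 3 * r := by
    rw [show 3 * (3 * r + 1) - 1 = 3 * (3 * r) + 2 by omega]
    have := g_three_two (3 * r)
    rw [g_three] at this
    exact this
  rw [a1, a2, a3, a4, a5] at h1
  omega

theorem τ_pos (n m : ℕ) (hm : m < n) : τ n m ≠ 0 :=
  mul_ne_zero (Nat.choose_pos (by omega)).ne' (Nat.choose_pos (by omega)).ne'

theorem last_dvd (r v : ℕ) (hv : 3 ^ v ∣ 2 * (3 * r + 1) + 1)
    (hn : ∀ m, 1 ≤ m → 2 * (3 * r + 1) + 1 ≠ 3 ^ m) : 3 ^ v ∣ τ (3 * r + 1) (3 * r) := by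
  rcases v with _ | v
  · simp
  · have e : 2 * (3 * r + 1) + 1 = 3 * (2 * r + 1) := by ring
    rw [e, pow_succ'] at hv
    have h1 := (dig v r (Nat.dvd_of_mul_dvd_mul_left (by norm_num) hv)).1 (by
      intro h
      apply hn (v + 1) (by omega)
      rw [e, h, pow_succ'])
    have h2 := v3_last r
    exact (Nat.prime_three.pow_dvd_iff_le_factorization (τ_pos _ _ (by omega))).mpr (by omega)

theorem last_not_dvd (r v : ℕ) (hv : 2 * (3 * r + 1) + 1 = 3 ^ (v + 1)) :
    ¬ 3 ^ (v + 1) ∣ τ (3 * r + 1) (3 * r) := by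
  have e : 2 * (3 * r + 1) + 1 = 3 * (2 * r + 1) := by ring
  have hv' : 2 * r + 1 = 3 ^ v := by
    rw [e, pow_succ'] at hv
    omega
  have h1 := (dig v r (by rw [hv'])).2 hv'
  have h2 := v3_last r
  intro h
  have := (Nat.prime_three.pow_dvd_iff_le_factorization (τ_pos _ _ (by omega))).mp h
  omega

/-- the alternating sum -/
def W (n : ℕ) : ℤ := ∑ m ∈ range n, (-1) ^ m * (τ n m : ℤ)

theorem sum_three (f : ℕ → ℤ) (r : ℕ) :
    ∑ m ∈ range (3 * r + 1), f m
      = ∑ j ∈ range r, (f (3 * j) + f (3 * j + 1) + f (3 * j + 2)) + f (3 * r) := by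
  induction r with
  | zero => simp
  | succ r ih =>
    rw [show 3 * (r + 1) + 1 = 3 * r + 1 + 1 + 1 + 1 by ring, Finset.sum_range_succ,
      Finset.sum_range_succ, Finset.sum_range_succ, ih, Finset.sum_range_succ]
    rw [show 3 * r + 1 + 1 = 3 * r + 2 by ring, show 3 * r + 2 + 1 = 3 * (r + 1) by ring]
    ring

theorem W_three (r v : ℕ) (hv : 3 ^ v ∣ 2 * (3 * r + 1) + 1) :
    (3 : ℤ) ^ v ∣ W (3 * r + 1) - (-1) ^ (3 * r) * (τ (3 * r + 1) (3 * r) : ℤ) := by
  unfold W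
  rw [sum_three, add_sub_cancel_right]
  refine Finset.dvd_sum fun j hj => ?_
  have hj' := Finset.mem_range.mp hj
  have h1 := pair r j v hv hj'
  have h2 : (3 : ℤ) ^ v ∣ (τ (3 * r + 1) (3 * j + 2) : ℤ) := by
    have := hv.trans (dvd_mod_two (3 * r + 1) (3 * j + 2) (by omega) (by omega) (by omega))
    exact_mod_cast this
  have e : (-1 : ℤ) ^ (3 * j) * (τ (3 * r + 1) (3 * j) : ℤ)
      + (-1) ^ (3 * j + 1) * (τ (3 * r + 1) (3 * j + 1) : ℤ)
      + (-1) ^ (3 * j + 2) * (τ (3 * r + 1) (3 * j + 2) : ℤ)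
      = (-1) ^ (3 * j) * (((τ (3 * r + 1) (3 * j) : ℤ) - τ (3 * r + 1) (3 * j + 1))
        + (τ (3 * r + 1) (3 * j + 2) : ℤ)) := by
    rw [pow_succ, pow_succ]
    ring
  rw [e]
  exact (h1.add h2).mul_left _

theorem W_even (n : ℕ) (hn : 1 ≤ n) : (2 : ℤ) ∣ W n := by
  unfold W
  refine Finset.dvd_sum fun m hm => Dvd.dvd.mul_left ?_ _
  have hm' := Finset.mem_range.mp hm
  have : 2 ∣ τ n m := by
    unfold τ
    rcases Nat.eq_zero_or_pos m with rfl | hpos
    · have h1 := Nat.add_one_mul_choose_eq (3 * n - 1) (2 * n - 1)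
      rw [show 3 * n - 1 + 1 = 3 * n by omega, show 2 * n - 1 + 1 = 2 * n by omega] at h1
      have h2 : 3 * (3 * n - 1).choose (2 * n - 1) = 2 * (3 * n).choose (2 * n) := by
        have h3 : n * (3 * (3 * n - 1).choose (2 * n - 1)) = n * (2 * (3 * n).choose (2 * n)) := by
          linarith
        exact Nat.eq_of_mul_eq_mul_left hn h3
      have h4 : (3 * n - 1).choose (n + 0) = (3 * n - 1).choose (2 * n - 1) := by
        rw [add_zero, ← Nat.choose_symm (by omega : 2 * n - 1 ≤ 3 * n - 1)]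
        congr 1
        omega
      rw [h4, Nat.choose_zero_right, one_mul]
      omega
    · exact Dvd.dvd.mul_right (Nat.two_dvd_centralBinom_of_one_le hpos) _
  exact_mod_cast this

theorem W_dvd_three (n : ℕ) : ((2 * n + 1 : ℕ) : ℤ) ∣ 3 * W n := by
  unfold W
  rw [Finset.mul_sum]
  refine Finset.dvd_sum fun m hm => ?_
  have h := dvd_three n m (Finset.mem_range.mp hm)
  have h' : ((2 * n + 1 : ℕ) : ℤ) ∣ 3 * (τ n m : ℤ) := by exact_mod_cast h
  rw [show (3 : ℤ) * ((-1) ^ m * (τ n m : ℤ)) = (-1) ^ m * (3 * (τ n m : ℤ)) by ring]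
  exact h'.mul_left _

/-- main divisibility when `2n+1` is not a power of `3` -/
theorem W_main (n : ℕ) (hn : 1 ≤ n) (h : ∀ m, 1 ≤ m → 2 * n + 1 ≠ 3 ^ m) :
    ((2 * (2 * n + 1) : ℕ) : ℤ) ∣ W n := by
  obtain ⟨v, u, hu, hvu⟩ := Nat.exists_eq_pow_mul_and_not_dvd (n := 2 * n + 1) (by omega) 3
    (by norm_num)
  have c1 : IsCoprime ((3 : ℤ) ^ v) (u : ℤ) := three_coprime_pow (by omega)
  have hodd : (2 * n + 1) % 2 = 1 := by omega
  have h3 : (3 : ℤ) ^ v ∣ W n := by
    rcases Nat.eq_zero_or_pos v with rfl | hv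
    · simp
    · have h3 : 3 ∣ 2 * n + 1 := by
        rw [hvu]
        exact (dvd_pow_self 3 (by omega)).mul_right u
      obtain ⟨r, rfl⟩ : ∃ r, n = 3 * r + 1 := ⟨(n - 1) / 3, by omega⟩
      have hv' : 3 ^ v ∣ 2 * (3 * r + 1) + 1 := ⟨u, hvu⟩
      have h4 := W_three r v hv'
      have h5 : (3 : ℤ) ^ v ∣ (τ (3 * r + 1) (3 * r) : ℤ) := by
        exact_mod_cast last_dvd r v hv' h
      have h6 := h4.add (h5.mul_left ((-1) ^ (3 * r)))
      rwa [sub_add_cancel] at h6
  have h4 : (u : ℤ) ∣ W n := by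
    have h5 : (u : ℤ) ∣ 3 * W n := by
      refine Dvd.dvd.trans ?_ (W_dvd_three n)
      rw [hvu]
      push_cast
      exact Dvd.intro_left _ rfl
    have c2 : IsCoprime (u : ℤ) (3 : ℤ) := by
      have := three_coprime_pow (v := 1) (a := u) (by omega)
      rw [pow_one] at this
      exact this.symm
    exact c2.dvd_of_dvd_mul_left h5
  have h5 : ((2 * n + 1 : ℕ) : ℤ) ∣ W n := by
    rw [hvu]
    push_cast
    exact c1.mul_dvd h3 h4
  have h6 := W_even n hn
  have c3 : IsCoprime (2 : ℤ) ((2 * n + 1 : ℕ) : ℤ) := ⟨-n, 1, by push_cast; ring⟩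
  have := c3.mul_dvd h6 h5
  push_cast at this ⊢
  exact this

/-- the case where `2n+1` is a power of `3` -/
theorem W_pow (n v : ℕ) (hn : 1 ≤ n) (h : 2 * n + 1 = 3 ^ v) :
    ∃ z : ℤ, 3 * W n = ((2 * (2 * n + 1) : ℕ) : ℤ) * z ∧ ¬ (3 : ℤ) ∣ z := by
  have h1 : ((2 * (2 * n + 1) : ℕ) : ℤ) ∣ 3 * W n := by
    have h6 := (W_even n hn).mul_left 3
    have c3 : IsCoprime (2 : ℤ) ((2 * n + 1 : ℕ) : ℤ) := ⟨-n, 1, by push_cast; ring⟩
    have := c3.mul_dvd h6 (W_dvd_three n)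
    push_cast at this ⊢
    exact this
  obtain ⟨z, hz⟩ := h1
  refine ⟨z, hz, ?_⟩
  rintro ⟨w, rfl⟩
  obtain ⟨v, rfl⟩ : ∃ w, v = w + 1 := by
    rcases v with _ | v
    · rw [pow_zero] at h
      omega
    · exact ⟨v, rfl⟩
  have h3 : 3 ∣ 2 * n + 1 := by
    rw [h]
    exact dvd_pow_self 3 (by omega)
  obtain ⟨r, rfl⟩ : ∃ r, n = 3 * r + 1 := ⟨(n - 1) / 3, by omega⟩
  have h4 : (3 : ℤ) ^ (v + 1) ∣ W (3 * r + 1) := by
    have h5 : W (3 * r + 1) = ((3 : ℤ) ^ (v + 1)) * (2 * w) := by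
      have h6 : (((2 * (3 * r + 1) + 1 : ℕ)) : ℤ) = (3 : ℤ) ^ (v + 1) := by rw [h]; push_cast; rfl
      have h7 : ((2 * (2 * (3 * r + 1) + 1) : ℕ) : ℤ) = 2 * (3 : ℤ) ^ (v + 1) := by
        rw [← h6]; push_cast; ring
      rw [h7] at hz
      linarith
    rw [h5]
    exact Dvd.intro _ rfl
  have h5 := W_three r (v + 1) (by rw [h])
  have h6 := (dvd_sub_right h4).mp h5
  have h7 : (3 : ℤ) ^ (v + 1) ∣ (τ (3 * r + 1) (3 * r) : ℤ) := by
    rcases neg_one_pow_eq_or ℤ (3 * r) with h8 | h8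
    · rw [h8, one_mul] at h6
      exact h6
    · rw [h8, neg_one_mul, dvd_neg] at h6
      exact h6
  exact last_not_dvd r v h (by exact_mod_cast h7)

end Pool.Agent.R312.V
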